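import Pool.Agent.V8H73.SF.Dv

/-!
# Permutations of the exponential points and roots
-/

set_option autoImplicit false
set_option linter.unusedSectionVars false

open MvPolynomial

namespace Pool.Agent.V8H73.SF

open Pool.Agent.V8H73.SE

open Pool.Agent.V8H73.AN (Ex Four Ph ez mo JJ Pj ιX ev_map Pj_map)

variable {n : ℕ} {S : Finset (Fin n × Ex n)}

theorem xp_exp (z : Fin n → ℂ) : xp Complex.exp z = ep z := rfl

/-- **Permutations of the exponential points, with roots.** -/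
theorem perm_dv (hS : Four S) (l0 : Fin n) {K : Subfield ℂ} [Countable K] {c : S → ℂ} (hc : Cm K c)
    (h : AlgebraicIndependent K (Sum.elim c fun q : {z : Fin n → ℂ // val c z = 0} × Fin n => (q.1 : Fin n → ℂ) q.2))
    (π : Equiv.Perm {z : Fin n → ℂ // val c z = 0}) : ∃ σ : ℂ ≃+* ℂ, (∀ a ∈ K, σ a = a) ∧ (∀ q, σ (c q) = c q) ∧
      ∀ (z : {z : Fin n → ℂ // val c z = 0}) (l : Fin n), σ (z.1 l) = (π z).1 l ∧
        ∀ m : ℕ, σ (Complex.exp (z.1 l / (m + 1 : ℕ))) = Complex.exp ((π z).1 l / (m + 1 : ℕ)) := by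
  classical
  have hcz : Countable {z : Fin n → ℂ // val c z = 0} := (zeros_countable hS hc.nd).to_subtype
  have hiz : Infinite {z : Fin n → ℂ // val c z = 0} := hc.inf.to_subtype
  obtain ⟨hden⟩ := nonempty_denumerable {z : Fin n → ℂ // val c z = 0}
  let e : {z : Fin n → ℂ // val c z = 0} ≃ ℕ := Denumerable.eqv _
  let z : ℕ → Fin n → ℂ := fun i => (e.symm i).1
  let x : ℕ → Fin n → ℂ := fun i => (π (e.symm i)).1
  have hzi : Function.Injective z := fun i j hij => e.symm.injective (Subtype.ext hij)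
  have hxi : Function.Injective x := fun i j hij => e.symm.injective (π.injective (Subtype.ext hij))
  have hz : ∀ i, val c (z i) = 0 := fun i => (e.symm i).2
  have hx : ∀ i, val c (x i) = 0 := fun i => (π (e.symm i)).2
  have hxI : ∀ k : ℕ, AlgebraicIndependent (SE.Fq K c fun i : Fin k => xp Complex.exp (x i)) (x k) := fun k =>
    SE.Ez_ai hS h (z := fun i : Fin k => x i) (fun i => hx i) (hx k) fun i hi => i.2.ne (hxi hi)
  obtain ⟨σ, hσ⟩ := lim (ι := (K ⊕ S) ⊕ ((ℕ × Fin n) ⊕ (ℕ × Fin n) × ℕ))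
    (q := Sum.elim (Sum.elim (fun a => (a : ℂ)) c)
      (Sum.elim (fun v => z v.1 v.2) fun v => Complex.exp (z v.1.1 v.1.2 / (v.2 + 1 : ℕ))))
    (q' := Sum.elim (Sum.elim (fun a => (a : ℂ)) c)
      (Sum.elim (fun v => x v.1 v.2) fun v => Complex.exp (x v.1.1 v.1.2 / (v.2 + 1 : ℕ)))) (fun s => by
      let bd : (K ⊕ S) ⊕ ((ℕ × Fin n) ⊕ (ℕ × Fin n) × ℕ) → ℕ :=
        Sum.elim (fun _ => 1) (Sum.elim (fun _ => 1) fun v => v.2 + 1)
      let bk : (K ⊕ S) ⊕ ((ℕ × Fin n) ⊕ (ℕ × Fin n) × ℕ) → ℕ :=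
        Sum.elim (fun _ => 0) (Sum.elim (fun v => v.1 + 1) fun v => v.1.1 + 1)
      have hN : ∏ v ∈ s, bd v ≠ 0 := Finset.prod_ne_zero_iff.2 fun v _ => by
        rcases v with v | (v | v)
        · exact one_ne_zero
        · exact one_ne_zero
        · exact Nat.succ_ne_zero _
      obtain ⟨σ, h1, h2, h3⟩ := lev_ext hS l0 hc h (RingEquiv.refl ℂ) (K' := K) (fun a ha => ha) (fun _ => rfl) hzi hz
        Complex.exp_add Complex.exp_zero (x := x) (fun i => by rw [xp_exp, Pv_ep, hx]) hxI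
        (∏ v ∈ s, bd v) hN (s.sup bk)
      refine ⟨σ, ?_⟩
      rintro ((a | s') | (⟨i, l⟩ | ⟨⟨i, l⟩, m⟩)) hv
      · exact h1 a a.2
      · exact h2 s'
      · have hk : bk (Sum.inr (Sum.inl (i, l))) ≤ s.sup bk := Finset.le_sup (f := bk) hv
        exact (h3 i hk l).1
      · have hk : bk (Sum.inr (Sum.inr ((i, l), m))) ≤ s.sup bk := Finset.le_sup (f := bk) hv
        have hd : (m + 1) ∣ ∏ v ∈ s, bd v := Finset.dvd_prod_of_mem bd hv
        change σ (Complex.exp (z i l / (m + 1 : ℕ))) = Complex.exp (x i l / (m + 1 : ℕ))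
        rw [exp_root hd hN, map_pow, (h3 i hk l).2, ← exp_root hd hN])
  refine ⟨σ, fun a ha => hσ (Sum.inl (Sum.inl ⟨a, ha⟩)), fun s => hσ (Sum.inl (Sum.inr s)), fun z1 l => ?_⟩
  have h5 : z (e z1) = z1.1 := by simp [z]
  have h6 : x (e z1) = (π z1).1 := by simp [x]
  have h7 : σ (z (e z1) l) = x (e z1) l := hσ (Sum.inr (Sum.inl (e z1, l)))
  refine ⟨?_, fun m => ?_⟩
  · rw [← h5, ← h6]
    exact h7
  · have h8 : σ (Complex.exp (z (e z1) l / (m + 1 : ℕ))) = Complex.exp (x (e z1) l / (m + 1 : ℕ)) :=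
      hσ (Sum.inr (Sum.inr ((e z1, l), m)))
    rw [← h5, ← h6]
    exact h8

end Pool.Agent.V8H73.SF
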