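import Pool.Agent.V8H73.SF.Lev

/-!
# Comparison of exponential maps on divisible groups
-/

set_option autoImplicit false
set_option linter.unusedSectionVars false

open MvPolynomial

namespace Pool.Agent.V8H73.SF

open Pool.Agent.V8H73.SE

open Pool.Agent.V8H73.AN (Ex Four Ph ez mo JJ Pj ιX ev_map Pj_map)

/-- limits of automorphisms -/
theorem lim {ι : Type} [Countable ι] {q q' : ι → ℂ} (h : ∀ s : Finset ι, ∃ σ : ℂ ≃+* ℂ, ∀ v ∈ s, σ (q v) = q' v) :
    ∃ σ : ℂ ≃+* ℂ, ∀ v, σ (q v) = q' v := by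
  classical
  have hrel : ∀ f : MvPolynomial ι ℚ, aeval q f = 0 ↔ aeval q' f = 0 := by
    intro f
    obtain ⟨s, g, rfl⟩ := exists_finset_rename f
    obtain ⟨σ, hσ⟩ := h s
    have h1 : σ (aeval q (rename Subtype.val g)) = aeval q' (rename Subtype.val g) := by
      rw [aeval_rename, aeval_rename]
      let τ' : ℂ →ₐ[ℚ] ℂ := (σ : ℂ →+* ℂ).toRatAlgHom
      have h2 := MvPolynomial.comp_aeval_apply (q ∘ (Subtype.val : s → _)) τ' g
      refine (h2 : σ (aeval (q ∘ (Subtype.val : s → _)) g) = _).trans ?_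
      congr 2
      funext v
      exact hσ v v.2
    rw [← h1]
    exact (map_eq_zero σ).symm
  obtain ⟨σ, -, h2⟩ := SE.same_rel (E := ℚ) hrel
  exact ⟨σ, h2⟩

theorem count_cl' (s : Set ℂ) (hs : s.Countable) : Countable (Subfield.closure s) := by
  have h1 : (Cardinal.mk (Subfield.closure s)) ≤ Cardinal.aleph0 := by
    refine (Subfield.cardinalMk_closure_le_max _).trans ?_
    rw [max_le_iff]
    exact ⟨Cardinal.le_aleph0_iff_set_countable.2 hs, le_rfl⟩
  exact Cardinal.mk_le_aleph0_iff.1 h1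

/-- primitive roots of unity are conjugate -/
theorem root_conj {ζ ζ' : ℂ} {N : ℕ} (hN : 0 < N) (h : IsPrimitiveRoot ζ N) (h' : IsPrimitiveRoot ζ' N) :
    ∃ σ : ℂ ≃+* ℂ, σ ζ = ζ' := by
  have hm : minpoly ℚ ζ = minpoly ℚ ζ' := by
    rw [← Polynomial.cyclotomic_eq_minpoly_rat h hN, ← Polynomial.cyclotomic_eq_minpoly_rat h' hN]
  have hev : ∀ (x : ℂ) (f : MvPolynomial Unit ℚ), aeval (fun _ : Unit => x) f =
      Polynomial.aeval x (MvPolynomial.uniqueAlgEquiv ℚ Unit f) := by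
    intro x f
    have h1 : (aeval (fun _ : Unit => x) : MvPolynomial Unit ℚ →ₐ[ℚ] ℂ) =
        (Polynomial.aeval x).comp (MvPolynomial.uniqueAlgEquiv ℚ Unit : MvPolynomial Unit ℚ →ₐ[ℚ] Polynomial ℚ) := by
      refine MvPolynomial.algHom_ext fun u => ?_
      simp
    rw [h1]
    rfl
  obtain ⟨σ, -, hσ⟩ := SE.same_rel (E := ℚ) (κ := Unit) (q := fun _ => ζ) (q' := fun _ => ζ') (fun f => by
    rw [hev, hev, ← minpoly.dvd_iff, ← minpoly.dvd_iff, hm])
  exact ⟨σ, hσ ()⟩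

theorem der_root {E : Subfield ℂ} (D : Derivation E ℂ ℂ) {y : ℂ} {M : ℕ} (hM : M ≠ 0) (hy : y ≠ 0)
    (h : D (y ^ M) = 0) : D y = 0 := by
  have hMc : (M : ℂ) ≠ 0 := Nat.cast_ne_zero.2 hM
  rw [Derivation.leibniz_pow, nsmul_eq_mul, smul_eq_mul, ← mul_assoc] at h
  exact (mul_eq_zero.1 h).resolve_left (mul_ne_zero hMc (pow_ne_zero _ hy))

/-- transcendental numbers over fields generated by a root of unity -/
theorem tr_root {κ ζ : ℂ} (hκ : Transcendental ℚ κ) {N : ℕ} (hN : 0 < N) (hζ : ζ ^ N = 1) :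
    AlgebraicIndependent (Subfield.closure ({ζ} : Set ℂ)) (fun _ : Unit => κ) := by
  refine Pool.Agent.H135R2.VS.algInd_of_der fun v => ?_
  have h1 : AlgebraicIndependent ℚ (fun _ : Unit => κ) := algebraicIndependent_unique_type_iff.2 hκ
  obtain ⟨D, hD⟩ := Pool.Agent.H135R2.VS.exists_der h1 v
  have h2 : D ζ = 0 := by
    refine der_alg D ?_
    refine IsAlgebraic.of_pow hN ?_
    rw [hζ]
    exact isAlgebraic_one
  exact ⟨ofD _ (D.restrictScalars ℤ) (Subfield.closure_le.2 fun x hx => by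
    rw [Set.mem_singleton_iff.1 hx]
    exact h2), hD⟩

section ex

variable {ex : ℂ → ℂ} (hadd : ∀ x y, ex (x + y) = ex x * ex y) {τ : ℂ} (hτ : Transcendental ℚ τ)
  (hker : ∀ x, ex x = 1 ↔ ∃ k : ℤ, x = k * τ)

include hker in
theorem ex_zero : ex 0 = 1 := (hker 0).2 ⟨0, by simp⟩

include hadd hτ hker in
theorem ex_prim {N : ℕ} (hN : 0 < N) : IsPrimitiveRoot (ex (τ / N)) N := by
  have hNc : (N : ℂ) ≠ 0 := Nat.cast_ne_zero.2 hN.ne'
  have h0 := ex_zero hker
  have hτ0 : τ ≠ 0 := fun h => hτ (by rw [h]; exact isAlgebraic_zero)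
  constructor
  · rw [← ex_nat hadd h0, mul_div_cancel₀ _ hNc]
    exact (hker τ).2 ⟨1, by simp⟩
  · intro l hl
    rw [← ex_nat hadd h0, hker] at hl
    obtain ⟨k, hk⟩ := hl
    have h1 : (l : ℂ) = k * N := by
      field_simp at hk
      rw [hk, mul_comm]
    have h2 : (l : ℤ) = k * N := by exact_mod_cast h1
    exact Int.natCast_dvd_natCast.1 ⟨k, by rw [h2]; ring⟩

include hadd hker in
theorem ex_root {N m : ℕ} (hm : (m + 1) ∣ N) (hN : N ≠ 0) (w : ℂ) :
    ex (w / (m + 1 : ℕ)) = ex (w / N) ^ (N / (m + 1)) := by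
  obtain ⟨r, rfl⟩ := hm
  have hr : r ≠ 0 := fun h => hN (by rw [h, mul_zero])
  rw [Nat.mul_div_cancel_left _ (Nat.succ_pos m), ← ex_nat hadd (ex_zero hker)]
  congr 1
  have h1 : (r : ℂ) ≠ 0 := Nat.cast_ne_zero.2 hr
  have h2 : ((m + 1 : ℕ) : ℂ) ≠ 0 := Nat.cast_ne_zero.2 (Nat.succ_ne_zero m)
  push_cast at h2 ⊢
  field_simp

end ex

theorem exp_root {N m : ℕ} (hm : (m + 1) ∣ N) (hN : N ≠ 0) (w : ℂ) :
    Complex.exp (w / (m + 1 : ℕ)) = Complex.exp (w / N) ^ (N / (m + 1)) :=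
  ex_root (τ := 2 * Real.pi * Complex.I) Complex.exp_add (fun _ => Complex.exp_eq_one_iff) hm hN w

variable {n : ℕ} {S : Finset (Fin n × Ex n)}

/-- the field generated by the kernel and the roots of unity -/
noncomputable def Kc (ex : ℂ → ℂ) (τ : ℂ) : Subfield ℂ :=
  Subfield.closure ({τ} ∪ Set.range fun m : ℕ => ex (τ / (m + 1 : ℕ)))

theorem Kc_count (ex : ℂ → ℂ) (τ : ℂ) : Countable (Kc ex τ) :=
  count_cl' _ ((Set.countable_singleton τ).union (Set.countable_range _))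

/-- **The automorphism on the kernel and the roots of unity.** -/
theorem base {ex : ℂ → ℂ} (hadd : ∀ x y, ex (x + y) = ex x * ex y) {τ : ℂ} (hτ : Transcendental ℚ τ)
    (hker : ∀ x, ex x = 1 ↔ ∃ k : ℤ, x = k * τ) {c : S → ℂ}
    (h : AlgebraicIndependent (Kc Complex.exp (2 * Real.pi * Complex.I)) c) (h' : AlgebraicIndependent (Kc ex τ) c) :
    ∃ σ : ℂ ≃+* ℂ, σ (2 * Real.pi * Complex.I) = τ ∧ (∀ s, σ (c s) = c s) ∧
      ∀ m : ℕ, σ (Complex.exp (2 * Real.pi * Complex.I / (m + 1 : ℕ))) = ex (τ / (m + 1 : ℕ)) := by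
  classical
  have key : ∀ N : ℕ, 0 < N → ∃ σ : ℂ ≃+* ℂ, σ (2 * Real.pi * Complex.I) = τ ∧ (∀ s, σ (c s) = c s) ∧
      σ (Complex.exp (2 * Real.pi * Complex.I / N)) = ex (τ / N) := by
    intro N hN
    obtain ⟨m, rfl⟩ : ∃ m, N = m + 1 := ⟨N - 1, by omega⟩
    have p1 := Complex.isPrimitiveRoot_exp (m + 1) (Nat.succ_ne_zero m)
    have p2 := ex_prim hadd hτ hker (Nat.succ_pos m)
    obtain ⟨θ, hθ⟩ := root_conj (Nat.succ_pos m) p1 p2
    have hcnt : Countable (Subfield.closure ({Complex.exp (2 * Real.pi * Complex.I / (m + 1 : ℕ))} : Set ℂ)) :=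
      count_cl _ (Set.finite_singleton _)
    have f1 := ai_tower' (tr_root tpi_tr (Nat.succ_pos m) p1.pow_eq_one)
      (show Subfield.closure ({Complex.exp (2 * Real.pi * Complex.I / (m + 1 : ℕ))} : Set ℂ) ≤
        Kc Complex.exp (2 * Real.pi * Complex.I) from Subfield.closure_le.2 fun x hx =>
          Subfield.subset_closure (Or.inr ⟨m, (Set.mem_singleton_iff.1 hx).symm⟩))
      (fun _ => Subfield.subset_closure (Or.inl rfl)) h
    have f2 := ai_tower' (tr_root hτ (Nat.succ_pos m) p2.pow_eq_one)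
      (show Subfield.closure ({ex (τ / (m + 1 : ℕ))} : Set ℂ) ≤ Kc ex τ from Subfield.closure_le.2 fun x hx =>
          Subfield.subset_closure (Or.inr ⟨m, (Set.mem_singleton_iff.1 hx).symm⟩))
      (fun _ => Subfield.subset_closure (Or.inl rfl)) h'
    have hmap : ∀ x ∈ Subfield.closure ({Complex.exp (2 * Real.pi * Complex.I / (m + 1 : ℕ))} : Set ℂ),
        θ x ∈ Subfield.closure ({ex (τ / (m + 1 : ℕ))} : Set ℂ) := by
      have h1 : Subfield.closure ({Complex.exp (2 * Real.pi * Complex.I / (m + 1 : ℕ))} : Set ℂ) ≤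
          (Subfield.closure ({ex (τ / (m + 1 : ℕ))} : Set ℂ)).comap (θ : ℂ →+* ℂ) := by
        refine Subfield.closure_le.2 ?_
        intro x hx
        rw [Set.mem_singleton_iff.1 hx]
        change θ _ ∈ Subfield.closure ({ex (τ / (m + 1 : ℕ))} : Set ℂ)
        rw [hθ]
        exact Subfield.subset_closure rfl
      exact h1
    have f3 := SE.ai_conj hmap f2
    obtain ⟨ρ, hρE, hρ⟩ := SE.exists_sigma f1 f3
    refine ⟨ρ.trans θ, ?_, fun s => ?_, ?_⟩
    · rw [RingEquiv.trans_apply]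
      have h1 : ρ (2 * Real.pi * Complex.I) = θ.symm τ := hρ (Sum.inl ())
      rw [h1, RingEquiv.apply_symm_apply]
    · rw [RingEquiv.trans_apply]
      have h1 : ρ (c s) = θ.symm (c s) := hρ (Sum.inr s)
      rw [h1, RingEquiv.apply_symm_apply]
    · rw [RingEquiv.trans_apply]
      have h1 := hρE ⟨_, Subfield.subset_closure (Set.mem_singleton (Complex.exp (2 * Real.pi * Complex.I / (m + 1 : ℕ))))⟩
      change ρ (Complex.exp (2 * Real.pi * Complex.I / (m + 1 : ℕ))) = _ at h1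
      rw [h1]
      exact hθ
  obtain ⟨σ, hσ⟩ := lim (ι := (Unit ⊕ S) ⊕ ℕ)
    (q := Sum.elim (Sum.elim (fun _ => 2 * Real.pi * Complex.I) c)
      fun m : ℕ => Complex.exp (2 * Real.pi * Complex.I / (m + 1 : ℕ)))
    (q' := Sum.elim (Sum.elim (fun _ => τ) c) fun m : ℕ => ex (τ / (m + 1 : ℕ))) (fun s => by
      let bd : (Unit ⊕ S) ⊕ ℕ → ℕ := Sum.elim (fun _ => 1) fun m => m + 1
      have hN : ∏ v ∈ s, bd v ≠ 0 := Finset.prod_ne_zero_iff.2 fun v _ => by
        rcases v with v | m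
        · exact one_ne_zero
        · exact Nat.succ_ne_zero m
      obtain ⟨σ, h1, h2, h3⟩ := key (∏ v ∈ s, bd v) (Nat.pos_of_ne_zero hN)
      refine ⟨σ, ?_⟩
      rintro ((u | s') | m) hv
      · exact h1
      · exact h2 s'
      · have hd : (m + 1) ∣ ∏ v ∈ s, bd v := Finset.dvd_prod_of_mem bd hv
        change σ (Complex.exp (2 * Real.pi * Complex.I / (m + 1 : ℕ))) = ex (τ / (m + 1 : ℕ))
        rw [exp_root hd hN, map_pow, h3, ← ex_root hadd hker hd hN])
  exact ⟨σ, hσ (Sum.inl (Sum.inl ())), fun s => hσ (Sum.inl (Sum.inr s)), fun m => hσ (Sum.inr m)⟩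

/-- **Comparison of two exponential maps on divisible groups.** -/
theorem dv_main (hS : Four S) (l0 : Fin n) {ex : ℂ → ℂ} (hadd : ∀ x y, ex (x + y) = ex x * ex y) {τ : ℂ}
    (hτ : Transcendental ℚ τ) (hker : ∀ x, ex x = 1 ↔ ∃ k : ℤ, x = k * τ) {c : S → ℂ}
    (hc : Cm (Kc Complex.exp (2 * Real.pi * Complex.I)) c)
    (h : AlgebraicIndependent (Kc Complex.exp (2 * Real.pi * Complex.I))
      (Sum.elim c fun q : {z : Fin n → ℂ // val c z = 0} × Fin n => (q.1 : Fin n → ℂ) q.2))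
    (hcK : AlgebraicIndependent (Kc ex τ) c)
    (hc' : Cm (Subfield.closure {τ}) c)
    (h' : AlgebraicIndependent (Subfield.closure {τ})
      (Sum.elim c fun q : {z : Fin n → ℂ // val c z = 0} × Fin n => (q.1 : Fin n → ℂ) q.2))
    (H : ∀ (m : ℕ) (a : Fin m → ℂ), (∀ s, c s ∈ Subfield.closure (Set.range a)) → ∃ x : Fin n → ℂ,
      Pv c (xp ex x) = 0 ∧ Algebra.trdeg (Subfield.closure (Set.range a))
        (IntermediateField.adjoin (Subfield.closure (Set.range a)) (Set.range (xp ex x))) = n) :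
    ∃ σ : ℂ ≃+* ℂ, σ (2 * Real.pi * Complex.I) = τ ∧ (∀ s, σ (c s) = c s) ∧
      (∀ m : ℕ, σ (Complex.exp (2 * Real.pi * Complex.I / (m + 1 : ℕ))) = ex (τ / (m + 1 : ℕ))) ∧
      ∀ z, val c z = 0 → ∀ l (m : ℕ), σ (Complex.exp (z l / (m + 1 : ℕ))) = ex (σ (z l) / (m + 1 : ℕ)) := by
  classical
  have hKc := Kc_count Complex.exp (2 * Real.pi * Complex.I)
  have hKc' : Countable (Subfield.closure ({τ} : Set ℂ)) := count_cl _ (Set.finite_singleton _)
  have h0 := ex_zero hker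
  have hne : ∀ y, ex y ≠ 0 := by
    intro y hy
    have h1 := hadd y (-y)
    rw [add_neg_cancel, h0, hy, zero_mul] at h1
    exact one_ne_zero h1
  obtain ⟨σ0, hσ1, hσ2, hσ3⟩ := base hadd hτ hker (h.comp Sum.inl Sum.inl_injective) hcK
  have hσK : ∀ a ∈ Kc Complex.exp (2 * Real.pi * Complex.I), σ0 a ∈ Kc ex τ := by
    have h1 : Kc Complex.exp (2 * Real.pi * Complex.I) ≤ (Kc ex τ).comap (σ0 : ℂ →+* ℂ) := by
      refine Subfield.closure_le.2 ?_
      rintro x (hx | ⟨m, rfl⟩)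
      · rw [Set.mem_singleton_iff.1 hx]
        change σ0 _ ∈ Kc ex τ
        rw [hσ1]
        exact Subfield.subset_closure (Or.inl rfl)
      · change σ0 _ ∈ Kc ex τ
        rw [hσ3]
        exact Subfield.subset_closure (Or.inr ⟨m, rfl⟩)
    exact h1
  -- the solutions
  have hcz : Countable {z : Fin n → ℂ // val c z = 0} := (zeros_countable hS hc.nd).to_subtype
  have hiz : Infinite {z : Fin n → ℂ // val c z = 0} := hc.inf.to_subtype
  obtain ⟨hden⟩ := nonempty_denumerable {z : Fin n → ℂ // val c z = 0}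
  let e : {z : Fin n → ℂ // val c z = 0} ≃ ℕ := Denumerable.eqv _
  let z : ℕ → Fin n → ℂ := fun i => (e.symm i).1
  have hzi : Function.Injective z := fun i j hij => e.symm.injective (Subtype.ext hij)
  have hz : ∀ i, val c (z i) = 0 := fun i => (e.symm i).2
  -- the points for the other map
  obtain ⟨x, hx⟩ := SE.exists_seq (α := Fin n → ℂ) (Q := fun A x => Pv c (xp ex x) = 0 ∧
      AlgebraicIndependent (Subfield.closure ((Subfield.closure ({τ} : Set ℂ) : Set ℂ) ∪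
        (Set.range c ∪ {y | ∃ x' ∈ A, ∃ o, xp ex x' o = y}))) x) (by
    intro A hA
    have hB : (({τ} : Set ℂ) ∪ (Set.range c ∪ {y | ∃ x' ∈ A, ∃ o, xp ex x' o = y})).Finite := by
      refine (Set.finite_singleton τ).union ((Set.finite_range c).union ?_)
      have h1 : {y | ∃ x' ∈ A, ∃ o, xp ex x' o = y} = ⋃ x' ∈ A, Set.range (xp ex x') := by
        ext y
        simp only [Set.mem_ofPred_eq, Set.mem_iUnion, Set.mem_range, exists_prop]
      rw [h1]
      exact hA.biUnion fun x' _ => Set.finite_range _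
    obtain ⟨m, a, -, ha⟩ := hB.fin_param
    have hca : ∀ s, c s ∈ Subfield.closure (Set.range a) := by
      intro s
      rw [ha]
      exact Subfield.subset_closure (Or.inr (Or.inl ⟨s, rfl⟩))
    obtain ⟨x, hx0, hx1⟩ := H m a hca
    have hKa : Subfield.closure ({τ} : Set ℂ) ≤ Subfield.closure (Set.range a) := by
      rw [ha]
      exact Subfield.closure_mono Set.subset_union_left
    refine ⟨x, hx0, ?_⟩
    have h1 := SE.gen_pt hS hc' h' hKa hca hx0 rfl hx1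
    refine ind_mono (Subfield.closure_le.2 ?_) h1
    rintro y (hy | hy)
    · exact hKa hy
    · rw [ha]
      exact Subfield.subset_closure (Or.inr hy))
  have hxI : ∀ k : ℕ, AlgebraicIndependent (SE.Fq (Kc ex τ) c fun i : Fin k => xp ex (x i)) (x k) := by
    intro k
    refine Pool.Agent.H135R2.VS.algInd_of_der fun v => ?_
    obtain ⟨D, hD⟩ := Pool.Agent.H135R2.VS.exists_der (hx k).2 v
    have hDF : ∀ y ∈ Subfield.closure ((Subfield.closure ({τ} : Set ℂ) : Set ℂ) ∪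
        (Set.range c ∪ {y | ∃ x' ∈ x '' Set.Iio k, ∃ o, xp ex x' o = y})), D y = 0 := fun y hy =>
      Derivation.map_algebraMap D (⟨y, hy⟩ : Subfield.closure ((Subfield.closure ({τ} : Set ℂ) : Set ℂ) ∪
        (Set.range c ∪ {y | ∃ x' ∈ x '' Set.Iio k, ∃ o, xp ex x' o = y})))
    have hle : SE.Fq (Kc ex τ) c (fun i : Fin k => xp ex (x i)) ≤ kf (D.restrictScalars ℤ) := by
      refine Subfield.closure_le.2 ?_
      rintro y (hy | hy | ⟨⟨i, o⟩, rfl⟩)
      · have h1 : Kc ex τ ≤ kf (D.restrictScalars ℤ) := by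
          refine Subfield.closure_le.2 ?_
          rintro w (hw | ⟨m, rfl⟩)
          · exact hDF w (Subfield.subset_closure (Or.inl (Subfield.subset_closure hw)))
          · refine der_root D (Nat.succ_ne_zero m) (hne _) ?_
            rw [(ex_prim hadd hτ hker (Nat.succ_pos m)).pow_eq_one]
            exact Derivation.map_one_eq_zero D
        exact h1 hy
      · exact hDF y (Subfield.subset_closure (Or.inr (Or.inl hy)))
      · exact hDF _ (Subfield.subset_closure (Or.inr (Or.inr ⟨x i, ⟨i, i.2, rfl⟩, o, rfl⟩)))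
    exact ⟨ofD _ _ hle, hD⟩
  -- all points together
  obtain ⟨σ, hσ⟩ := lim (ι := ((Unit ⊕ S) ⊕ ℕ) ⊕ ((ℕ × Fin n) ⊕ (ℕ × Fin n) × ℕ))
    (q := Sum.elim (Sum.elim (Sum.elim (fun _ => 2 * Real.pi * Complex.I) c)
      fun m : ℕ => Complex.exp (2 * Real.pi * Complex.I / (m + 1 : ℕ)))
      (Sum.elim (fun v => z v.1 v.2) fun v => Complex.exp (z v.1.1 v.1.2 / (v.2 + 1 : ℕ))))
    (q' := Sum.elim (Sum.elim (Sum.elim (fun _ => τ) c) fun m : ℕ => ex (τ / (m + 1 : ℕ)))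
      (Sum.elim (fun v => x v.1 v.2) fun v => ex (x v.1.1 v.1.2 / (v.2 + 1 : ℕ)))) (fun s => by
      let bd : ((Unit ⊕ S) ⊕ ℕ) ⊕ ((ℕ × Fin n) ⊕ (ℕ × Fin n) × ℕ) → ℕ :=
        Sum.elim (fun _ => 1) (Sum.elim (fun _ => 1) fun v => v.2 + 1)
      let bk : ((Unit ⊕ S) ⊕ ℕ) ⊕ ((ℕ × Fin n) ⊕ (ℕ × Fin n) × ℕ) → ℕ :=
        Sum.elim (fun _ => 0) (Sum.elim (fun v => v.1 + 1) fun v => v.1.1 + 1)
      have hN : ∏ v ∈ s, bd v ≠ 0 := Finset.prod_ne_zero_iff.2 fun v _ => by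
        rcases v with v | (v | v)
        · exact one_ne_zero
        · exact one_ne_zero
        · exact Nat.succ_ne_zero _
      obtain ⟨σ, h1, h2, h3⟩ := lev_ext hS l0 hc h σ0 hσK hσ2 hzi hz hadd h0 (fun i => (hx i).1) hxI
        (∏ v ∈ s, bd v) hN (s.sup bk)
      refine ⟨σ, ?_⟩
      rintro (((u | s') | m) | (⟨i, l⟩ | ⟨⟨i, l⟩, m⟩)) hv
      · exact (h1 _ (Subfield.subset_closure (Or.inl rfl))).trans hσ1
      · exact h2 s'
      · exact (h1 _ (Subfield.subset_closure (Or.inr ⟨m, rfl⟩))).trans (hσ3 m)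
      · have hk : bk (Sum.inr (Sum.inl (i, l))) ≤ s.sup bk := Finset.le_sup (f := bk) hv
        exact (h3 i hk l).1
      · have hk : bk (Sum.inr (Sum.inr ((i, l), m))) ≤ s.sup bk := Finset.le_sup (f := bk) hv
        have hd : (m + 1) ∣ ∏ v ∈ s, bd v := Finset.dvd_prod_of_mem bd hv
        change σ (Complex.exp (z i l / (m + 1 : ℕ))) = ex (x i l / (m + 1 : ℕ))
        rw [exp_root hd hN, map_pow, (h3 i hk l).2, ← ex_root hadd hker hd hN])
  refine ⟨σ, hσ (Sum.inl (Sum.inl (Sum.inl ()))), fun s => hσ (Sum.inl (Sum.inl (Sum.inr s))),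
    fun m => hσ (Sum.inl (Sum.inr m)), fun z1 hz1 l m => ?_⟩
  obtain ⟨i, hi⟩ : ∃ i, z i = z1 := ⟨e ⟨z1, hz1⟩, by simp [z]⟩
  subst hi
  have h3 : σ (z i l) = x i l := hσ (Sum.inr (Sum.inl (i, l)))
  have h4 : σ (Complex.exp (z i l / (m + 1 : ℕ))) = ex (x i l / (m + 1 : ℕ)) := hσ (Sum.inr (Sum.inr ((i, l), m)))
  rw [h3, h4]

end Pool.Agent.V8H73.SF
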