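import Pool.Agent.V8H73.SF.Unq

/-!
# The component of the exponential points is free and rotund
-/

set_option autoImplicit false
set_option linter.unusedSectionVars false

open MvPolynomial MeasureTheory

namespace Pool.Agent.V8H73.SF

open Pool.Agent.V8H73.SE

open Pool.Agent.V8H73.AN (Ex Four Ph ez mo JJ Pj ιX)

variable {n : ℕ} {S : Finset (Fin n × Ex n)}

/-- the generic point in the function field -/
theorem gp_frac (P : Ideal (MvPolynomial (Fin n ⊕ Fin n) ℂ)) [P.IsPrime] :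
    Gp P (fun o => algebraMap (MvPolynomial (Fin n ⊕ Fin n) ℂ ⧸ P)
      (FractionRing (MvPolynomial (Fin n ⊕ Fin n) ℂ ⧸ P)) (Ideal.Quotient.mk P (X o))) := by
  have h1 : (aeval (fun o => algebraMap (MvPolynomial (Fin n ⊕ Fin n) ℂ ⧸ P)
      (FractionRing (MvPolynomial (Fin n ⊕ Fin n) ℂ ⧸ P)) (Ideal.Quotient.mk P (X o))) :
      MvPolynomial (Fin n ⊕ Fin n) ℂ →ₐ[ℂ] FractionRing (MvPolynomial (Fin n ⊕ Fin n) ℂ ⧸ P)) =
      (IsScalarTower.toAlgHom ℂ (MvPolynomial (Fin n ⊕ Fin n) ℂ ⧸ P)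
        (FractionRing (MvPolynomial (Fin n ⊕ Fin n) ℂ ⧸ P))).comp (Ideal.Quotient.mkₐ ℂ P) := by
    refine MvPolynomial.algHom_ext fun o => ?_
    rw [aeval_X]
    rfl
  have h2 : ∀ f : MvPolynomial (Fin n ⊕ Fin n) ℂ, aeval (fun o => algebraMap (MvPolynomial (Fin n ⊕ Fin n) ℂ ⧸ P)
      (FractionRing (MvPolynomial (Fin n ⊕ Fin n) ℂ ⧸ P)) (Ideal.Quotient.mk P (X o))) f =
      algebraMap (MvPolynomial (Fin n ⊕ Fin n) ℂ ⧸ P) (FractionRing (MvPolynomial (Fin n ⊕ Fin n) ℂ ⧸ P))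
        (Ideal.Quotient.mk P f) := fun f => by
    rw [h1]
    rfl
  constructor
  · intro f
    rw [h2, IsFractionRing.to_map_eq_zero_iff, Ideal.Quotient.eq_zero_iff_mem]
  · intro e
    obtain ⟨a, b, -, rfl⟩ := IsFractionRing.div_surjective (A := MvPolynomial (Fin n ⊕ Fin n) ℂ ⧸ P) e
    obtain ⟨f, rfl⟩ := Ideal.Quotient.mk_surjective a
    obtain ⟨g, rfl⟩ := Ideal.Quotient.mk_surjective b
    exact ⟨f, g, by rw [h2, h2]⟩

/-- the ideal of all exponential points -/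
def Vi (c : S → ℂ) : Ideal (MvPolynomial (Fin n ⊕ Fin n) ℂ) where
  carrier := {f | ∀ z, val c z = 0 → eval (Sum.elim z fun l => Complex.exp (z l)) f = 0}
  zero_mem' := fun z _ => map_zero _
  add_mem' := fun {f g} hf hg z hz => by rw [map_add, hf z hz, hg z hz, add_zero]
  smul_mem' := fun a f hf z hz => by rw [smul_eq_mul, map_mul, hf z hz, mul_zero]

theorem Zp_Vi (c : S → ℂ) : Zp (Vi c) = {z | val c z = 0} := by
  ext z
  constructor
  · intro hz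
    refine Zp_sub (P := Vi c) (fun j z' hz' => ?_) hz
    rw [← val_ev]
    exact congrFun hz' j
  · exact fun hz f hf => hf z hz

/-- **The ideal of the exponential points.** -/
theorem Vi_main (hS : Tw S) (l0 : Fin n) {K : Subfield ℂ} [Countable K] {c : S → ℂ} (hc : Cm K c)
    (h : AlgebraicIndependent K (Sum.elim c fun q : {z : Fin n → ℂ // val c z = 0} × Fin n => (q.1 : Fin n → ℂ) q.2)) :
    (Vi c).IsPrime ∧ Vi c ∈ (Ideal.span (Set.range (Pj c))).minimalPrimes ∧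
      ∀ Q : Ideal (MvPolynomial (Fin n ⊕ Fin n) ℂ), Q.IsPrime → (∀ j, Pj c j ∈ Q) → (Zp Q).Infinite → Q = Vi c := by
  have key : ∀ Q : Ideal (MvPolynomial (Fin n ⊕ Fin n) ℂ), Q.IsPrime → (∀ j, Pj c j ∈ Q) → (Zp Q).Infinite →
      ∀ P₁ : Ideal (MvPolynomial (Fin n ⊕ Fin n) ℂ), (∀ z, val c z = 0 → z ∈ Zp P₁) → P₁ ≤ Q := by
    intro Q hQ hQc hQi P₁ hP₁
    refine le_of_common hc (gp_frac Q) hQc ?_
    have h1 : Zp P₁ ∩ Zp Q = Zp Q := Set.inter_eq_right.2 fun z hz => hP₁ z (Zp_sub hQc hz)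
    rw [h1]
    exact hQi
  obtain ⟨P, hP, hPz⟩ := one_cmp hS l0 h hc.inf
  have hPp : P.IsPrime := hP.1.1
  have hPc : ∀ j, Pj c j ∈ P := fun j => hP.1.2 (Ideal.subset_span ⟨j, rfl⟩)
  have hPi : (Zp P).Infinite := hc.inf.mono fun z hz => hPz z hz
  have h1 : P = Vi c := by
    refine le_antisymm (fun f hf z hz => hPz z hz f hf) (key P hPp hPc hPi _ fun z hz => ?_)
    rw [Zp_Vi]
    exact hz
  refine ⟨h1 ▸ hPp, h1 ▸ hP, fun Q hQ hQc hQi => ?_⟩
  rw [← h1]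
  have h2 : P ≤ Q := key Q hQ hQc hQi P hPz
  refine le_antisymm ?_ h2
  exact le_of_common hc (gp_frac P) hPc (by
    have h3 : Zp Q ∩ Zp P = Zp Q := Set.inter_eq_left.2 fun z hz => hPz z (Zp_sub hQc hz)
    rw [h3]
    exact hQi)

end Pool.Agent.V8H73.SF
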