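import Pool.Agent.V8H73.SF.Inv
import Pool.Agent.N202.QR.Ext

/-!
# Homogeneity of the exponential points
-/

set_option autoImplicit false
set_option linter.unusedSectionVars false

open MvPolynomial Cardinal

namespace Pool.Agent.V8H73.SF

open Pool.Agent.V8H73.SE

open Pool.Agent.V8H73.AN (Ex Four Ph ez mo JJ Pj ιX ev_map Pj_map cF der_Pj)

/-- **Families with the same relations are conjugate.** -/
theorem same_rel {E : Type} [Field E] [Algebra E ℂ] [Countable E] {κ : Type} [Countable κ] {q q' : κ → ℂ}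
    (h : ∀ f : MvPolynomial κ E, aeval q f = 0 ↔ aeval q' f = 0) :
    ∃ σ : ℂ ≃+* ℂ, (∀ a : E, σ (algebraMap E ℂ a) = algebraMap E ℂ a) ∧ ∀ i, σ (q i) = q' i := by
  let I : Ideal (MvPolynomial κ E) := RingHom.ker (aeval q : MvPolynomial κ E →ₐ[E] ℂ)
  have hI : I.IsPrime := RingHom.ker_isPrime _
  let φ : (MvPolynomial κ E ⧸ I) →+* ℂ := Ideal.Quotient.lift I (aeval q : MvPolynomial κ E →ₐ[E] ℂ).toRingHom
    fun a ha => ha
  let φ' : (MvPolynomial κ E ⧸ I) →+* ℂ := Ideal.Quotient.lift I (aeval q' : MvPolynomial κ E →ₐ[E] ℂ).toRingHom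
    fun a ha => (h a).1 ha
  have hφ : ∀ f, φ (Ideal.Quotient.mk I f) = aeval q f := fun f => rfl
  have hφ' : ∀ f, φ' (Ideal.Quotient.mk I f) = aeval q' f := fun f => rfl
  have i1 : Function.Injective φ := by
    rw [injective_iff_map_eq_zero]
    intro a ha
    obtain ⟨f, rfl⟩ := Ideal.Quotient.mk_surjective a
    rw [hφ] at ha
    exact Ideal.Quotient.eq_zero_iff_mem.2 ha
  have i2 : Function.Injective φ' := by
    rw [injective_iff_map_eq_zero]
    intro a ha
    obtain ⟨f, rfl⟩ := Ideal.Quotient.mk_surjective a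
    rw [hφ'] at ha
    exact Ideal.Quotient.eq_zero_iff_mem.2 ((h f).2 ha)
  let R := FractionRing (MvPolynomial κ E ⧸ I)
  let ψ : R →+* ℂ := IsFractionRing.lift i1
  let ψ' : R →+* ℂ := IsFractionRing.lift i2
  have hψ : ∀ a, ψ (algebraMap _ R a) = φ a := fun a => IsFractionRing.lift_algebraMap i1 a
  have hψ' : ∀ a, ψ' (algebraMap _ R a) = φ' a := fun a => IsFractionRing.lift_algebraMap i2 a
  have c1 : Countable (MvPolynomial κ E) := by
    rw [← Cardinal.mk_le_aleph0_iff]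
    refine MvPolynomial.cardinalMk_le_max.trans ?_
    simp only [sup_le_iff, le_refl, and_true]
    exact ⟨Cardinal.mk_le_aleph0, Cardinal.mk_le_aleph0⟩
  have c2 : Countable (MvPolynomial κ E ⧸ I) := Ideal.Quotient.mk_surjective.countable
  have c3 : Countable R := by
    have hs : Function.Surjective fun v : (MvPolynomial κ E ⧸ I) × (MvPolynomial κ E ⧸ I) =>
        algebraMap _ R v.1 / algebraMap _ R v.2 := by
      intro e
      obtain ⟨a, b, -, rfl⟩ := IsFractionRing.div_surjective (A := MvPolynomial κ E ⧸ I) e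
      exact ⟨(a, b), rfl⟩
    exact hs.countable
  obtain ⟨σ, hσ⟩ := @Pool.Agent.N202.QR.exists_ringEquiv R ℂ ℂ _ _ _ ψ.toAlgebra ψ'.toAlgebra _ _
    Cardinal.mk_le_aleph0 (by rw [Cardinal.mk_complex]; exact Cardinal.aleph0_lt_continuum) rfl
  have hσ' : ∀ x, σ (ψ x) = ψ' x := hσ
  have key : ∀ f : MvPolynomial κ E, σ (aeval q f) = aeval q' f := by
    intro f
    rw [← hφ, ← hφ', ← hψ, ← hψ']
    exact hσ' _
  refine ⟨σ, fun a => ?_, fun i => ?_⟩
  · have h1 := key (C a)
    rwa [aeval_C, aeval_C] at h1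
  · have h1 := key (X i)
    rwa [aeval_X, aeval_X] at h1

variable {n : ℕ} {S : Finset (Fin n × Ex n)}

/-- the relations of a generic point of the component -/
theorem rel_core {c : S → ℂ} {P : Ideal (MvPolynomial (Fin n ⊕ Fin n) ℂ)} {L : Type} [Field L] [Algebra ℂ L]
    {ξ : Fin n ⊕ Fin n → L} (hp : Gp P ξ) (hcP : ∀ j, Pj c j ∈ P)
    (hxi : AlgebraicIndependent ℂ fun l => ξ (Sum.inl l))
    (hdet : (JJ (fun q => algebraMap ℂ L (c q)) (fun l => ξ (Sum.inl l)) fun l => ξ (Sum.inr l)).det ≠ 0)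
    {E : Subfield ℂ} (hcE : ∀ q, c q ∈ E) {q : Fin n ⊕ Fin n → ℂ} (hq : ∀ f ∈ P, eval q f = 0)
    (hx : AlgebraicIndependent E fun l => q (Sum.inl l)) {f : MvPolynomial (Fin n ⊕ Fin n) E}
    (h0 : aeval q f = 0) : map (algebraMap E ℂ) f ∈ P := by
  classical
  by_contra hF
  have hu : aeval ξ f ≠ 0 := by
    intro h1
    apply hF
    rw [← hp.ev, aeval_map_algebraMap]
    exact h1
  have hxE : AlgebraicIndependent E fun l => ξ (Sum.inl l) :=
    hxi.restrictScalars (K := ℂ) (algebraMap E ℂ).injective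
  set M := IntermediateField.adjoin E (Set.range ξ) with hM
  have hξM : ∀ o, ξ o ∈ M := fun o => IntermediateField.subset_adjoin _ _ ⟨o, rfl⟩
  let cE : S → E := fun q => ⟨c q, hcE q⟩
  have hcF : cF L cE = fun q => algebraMap ℂ L (c q) := rfl
  have htr : Algebra.trdeg E M ≤ n := by
    let LZ : Derivation E L L →ₗ[L] (Fin n → L) :=
      { toFun := fun δ l => δ (ξ (Sum.inr l)) - ξ (Sum.inr l) * δ (ξ (Sum.inl l))
        map_add' := fun δ δ' => by
          funext l
          simp only [Derivation.add_apply, Pi.add_apply]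
          ring
        map_smul' := fun a δ => by
          funext l
          simp only [Derivation.smul_apply, Pi.smul_apply, smul_eq_mul, RingHom.id_apply]
          ring }
    refine trdeg_le_of_kill LZ _ fun δ hδ m hm => ?_
    have h2 : ∀ l, δ (ξ (Sum.inr l)) = ξ (Sum.inr l) * δ (ξ (Sum.inl l)) := fun l =>
      sub_eq_zero.1 (congrFun hδ l)
    have h3 : (JJ (fun q => algebraMap ℂ L (c q)) (fun l => ξ (Sum.inl l)) fun l => ξ (Sum.inr l)).mulVec
        (fun l => δ (ξ (Sum.inl l))) = 0 := by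
      funext j
      have h4 := der_Pj (c := cE) δ (fun l => ξ (Sum.inl l)) (fun l => ξ (Sum.inr l)) j
      have h6 : (Sum.elim (fun l => ξ (Sum.inl l)) fun l => ξ (Sum.inr l) : Fin n ⊕ Fin n → L) = ξ := by
        funext o
        rcases o with o | o <;> rfl
      rw [hcF] at h4
      have h5 : eval (Sum.elim (fun l => ξ (Sum.inl l)) fun l => ξ (Sum.inr l))
          (Pj (fun q => algebraMap ℂ L (c q)) j) = 0 := by
        rw [h6, ← Pj_map, eval_map, ← aeval_def, hp.ev]
        exact hcP j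
      rw [h5, map_zero] at h4
      rw [Pi.zero_apply, h4]
      unfold Matrix.mulVec dotProduct
      rw [← Finset.sum_add_distrib]
      refine Finset.sum_congr rfl fun l _ => ?_
      unfold JJ
      beta_reduce
      rw [Matrix.of_apply, h2]
      ring
    have h4 := Matrix.eq_zero_of_mulVec_eq_zero hdet h3
    refine der_adjoin _ δ ?_ ⟨m, hm⟩
    rintro _ ⟨l | l, rfl⟩
    · exact congrFun h4 l
    · rw [h2, show δ (ξ (Sum.inl l)) = 0 from congrFun h4 l, mul_zero]
  have hxM : AlgebraicIndependent E fun l : Fin n => (⟨ξ (Sum.inl l), hξM _⟩ : M) := by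
    refine AlgebraicIndependent.of_comp (f := M.val) ?_
    exact hxE
  have hb := hxM.isTranscendenceBasis_of_trdeg_le_of_finite (by rw [Cardinal.mk_fin]; exact htr)
  have halg := hb.isAlgebraic
  let ξM : Fin n ⊕ Fin n → M := fun o => ⟨ξ o, hξM o⟩
  have hval : ∀ g : MvPolynomial (Fin n ⊕ Fin n) E, ((aeval ξM g : M) : L) = aeval ξ g := by
    intro g
    have h1 := MvPolynomial.comp_aeval_apply ξM M.val g
    exact h1
  have huM : aeval ξM f ≠ 0 := fun h1 => hu (by rw [← hval, h1]; rfl)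
  obtain ⟨Q, hQ0, hQ⟩ := (halg.isAlgebraic (aeval ξM f)).exists_nonzero_coeff_and_aeval_eq_zero
    (mem_nonZeroDivisors_of_ne_zero huM)
  have hg : ∀ i, ∃ g : MvPolynomial (Fin n) E, aeval (fun l => (⟨ξ (Sum.inl l), hξM _⟩ : M)) g = (Q.coeff i : M) := by
    intro i
    have h1 : ∀ x ∈ Algebra.adjoin E (Set.range fun l : Fin n => (⟨ξ (Sum.inl l), hξM _⟩ : M)),
        x ∈ (aeval (fun l => (⟨ξ (Sum.inl l), hξM _⟩ : M)) : MvPolynomial (Fin n) E →ₐ[E] M).range := by
      rw [Algebra.adjoin_range_eq_range_aeval]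
      exact fun x hx => hx
    exact h1 _ (Q.coeff i).2
  choose g hg using hg
  have hG : aeval ξM (∑ i ∈ Finset.range (Q.natDegree + 1), rename Sum.inl (g i) * f ^ i) = 0 := by
    rw [map_sum, ← hQ, Polynomial.aeval_eq_sum_range]
    refine Finset.sum_congr rfl fun i _ => ?_
    rw [map_mul, map_pow, aeval_rename]
    have h1 : aeval (ξM ∘ Sum.inl) (g i) = (Q.coeff i : M) := hg i
    rw [h1]
    rfl
  have hG' : map (algebraMap E ℂ) (∑ i ∈ Finset.range (Q.natDegree + 1), rename Sum.inl (g i) * f ^ i) ∈ P := by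
    rw [← hp.ev, aeval_map_algebraMap, ← hval, hG]
    rfl
  have h1 := hq _ hG'
  rw [eval_map, ← aeval_def, map_sum, Finset.sum_eq_single 0] at h1
  · rw [pow_zero, mul_one, aeval_rename] at h1
    have h2 : g 0 = 0 := (algebraicIndependent_iff.1 hx) (g 0) h1
    apply hQ0
    apply Subtype.ext
    rw [← hg 0, h2, map_zero]
    rfl
  · intro i _ hi
    rw [map_mul, map_pow, h0, zero_pow hi, mul_zero]
  · intro h2
    exact absurd (Finset.mem_range.2 (Nat.succ_pos _)) h2

/-- **Generic points of the component are conjugate.** -/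
theorem conj_gen (hS : Tw S) (l0 : Fin n) {K : Subfield ℂ} [Countable K] {c : S → ℂ} (hc : Cm K c)
    (h : AlgebraicIndependent K (Sum.elim c fun q : {z : Fin n → ℂ // val c z = 0} × Fin n => (q.1 : Fin n → ℂ) q.2))
    {E : Subfield ℂ} [Countable E] (hcE : ∀ q, c q ∈ E) {q q' : Fin n ⊕ Fin n → ℂ}
    (hq : ∀ f ∈ Vi c, eval q f = 0) (hq' : ∀ f ∈ Vi c, eval q' f = 0)
    (hx : AlgebraicIndependent E fun l => q (Sum.inl l)) (hx' : AlgebraicIndependent E fun l => q' (Sum.inl l)) :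
    ∃ σ : ℂ ≃+* ℂ, (∀ a ∈ E, σ a = a) ∧ ∀ o, σ (q o) = q' o := by
  obtain ⟨m1, m2, m3⟩ := Vi_main hS l0 hc h
  have hinf : (Zp (Vi c)).Infinite := by
    rw [Zp_Vi]
    exact hc.inf
  have hcP : ∀ j, Pj c j ∈ Vi c := fun j => m2.1.2 (Ideal.subset_span ⟨j, rfl⟩)
  have hgp := gp_frac (Vi c)
  have hxi := ind_x hgp hc hcP hinf
  have hdet := det_pt hgp hc hcP hinf
  have key : ∀ {p : Fin n ⊕ Fin n → ℂ}, (∀ f ∈ Vi c, eval p f = 0) →
      AlgebraicIndependent E (fun l => p (Sum.inl l)) → ∀ f : MvPolynomial (Fin n ⊕ Fin n) E,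
      aeval p f = 0 ↔ map (algebraMap E ℂ) f ∈ Vi c := by
    intro p hp hpx f
    refine ⟨fun h0 => rel_core hgp hcP hxi hdet hcE hp hpx h0, fun hf => ?_⟩
    have h1 := hp _ hf
    rwa [eval_map, ← aeval_def] at h1
  obtain ⟨σ, h1, h2⟩ := same_rel (E := E) (q := q) (q' := q') fun f => (key hq hx f).trans (key hq' hx' f).symm
  exact ⟨σ, fun a ha => h1 ⟨a, ha⟩, h2⟩

/-- the field generated by the coefficients and some exponential points -/
noncomputable def Ez (K : Subfield ℂ) (c : S → ℂ) {k : ℕ} (z : Fin k → Fin n → ℂ) : Subfield ℂ :=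
  Subfield.closure ((K : Set ℂ) ∪ (Set.range c ∪ Set.range fun v : Fin k × (Fin n ⊕ Fin n) => ep (z v.1) v.2))

theorem Ez_count (K : Subfield ℂ) [Countable K] (c : S → ℂ) {k : ℕ} (z : Fin k → Fin n → ℂ) :
    Countable (Ez K c z) := by
  have h1 : (Cardinal.mk (Ez K c z)) ≤ Cardinal.aleph0 := by
    refine (Subfield.cardinalMk_closure_le_max _).trans ?_
    rw [max_le_iff]
    refine ⟨?_, le_rfl⟩
    rw [Cardinal.le_aleph0_iff_set_countable]
    refine Set.Countable.union ?_ ((Set.finite_range c).countable.union (Set.finite_range _).countable)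
    exact Set.countable_coe_iff.1 (inferInstanceAs (Countable K))
  exact Cardinal.mk_le_aleph0_iff.1 h1

theorem Ez_ai (hS : Tw S) {K : Subfield ℂ} {c : S → ℂ}
    (h : AlgebraicIndependent K (Sum.elim c fun q : {z : Fin n → ℂ // val c z = 0} × Fin n => (q.1 : Fin n → ℂ) q.2))
    {k : ℕ} {z : Fin k → Fin n → ℂ} (hz : ∀ i, val c (z i) = 0) {w : Fin n → ℂ} (hw : val c w = 0)
    (hne : ∀ i, z i ≠ w) : AlgebraicIndependent (Ez K c z) w := by
  classical
  refine Pool.Agent.H135R2.VS.algInd_of_der fun v => ?_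
  obtain ⟨D, hD⟩ := Pool.Agent.H135R2.VS.exists_der h
    (Sum.elim (fun _ => 0) fun q => if (q.1 : Fin n → ℂ) = w then v q.2 else 0)
  have hDc : ∀ q, D (c q) = 0 := fun q => hD (Sum.inl q)
  have hDz : ∀ i l, D (z i l) = 0 := by
    intro i l
    have h1 := hD (Sum.inr ((⟨z i, hz i⟩ : {z : Fin n → ℂ // val c z = 0}), l))
    rw [Sum.elim_inr, Sum.elim_inr, if_neg (hne i)] at h1
    exact h1
  have hDe : ∀ i l, D (Complex.exp (z i l)) = 0 := fun i l => kill_exp hS (sub1 h (hz i)) (hz i) D hDc (hDz i) l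
  have hE : Ez K c z ≤ kf (D.restrictScalars ℤ) := by
    refine le_kf ?_
    rintro x (hx | ⟨q, rfl⟩ | ⟨⟨i, l | l⟩, rfl⟩)
    · exact Derivation.map_algebraMap D (⟨x, hx⟩ : K)
    · exact hDc q
    · exact hDz i l
    · exact hDe i l
  refine ⟨ofD _ (D.restrictScalars ℤ) hE, fun l => ?_⟩
  rw [ofD_apply]
  have h1 := hD (Sum.inr ((⟨w, hw⟩ : {z : Fin n → ℂ // val c z = 0}), l))
  rw [Sum.elim_inr, Sum.elim_inr, if_pos rfl] at h1
  exact h1

/-- the conjugate of a derivation -/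
noncomputable def cj (σ : ℂ ≃+* ℂ) (D : Derivation ℤ ℂ ℂ) : Derivation ℤ ℂ ℂ where
  toFun := fun x => σ.symm (D (σ x))
  map_add' := fun a b => by rw [map_add, map_add, map_add]
  map_smul' := fun a b => by
    rw [RingHom.id_apply, map_zsmul, map_zsmul, map_zsmul]
  map_one_eq_zero' := by
    change σ.symm (D (σ 1)) = 0
    rw [map_one, Derivation.map_one_eq_zero, map_zero]
  leibniz' := fun a b => by
    change σ.symm (D (σ (a * b))) = a • σ.symm (D (σ b)) + b • σ.symm (D (σ a))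
    rw [map_mul, Derivation.leibniz, map_add, smul_eq_mul, smul_eq_mul, map_mul, map_mul, RingEquiv.symm_apply_apply,
      RingEquiv.symm_apply_apply, smul_eq_mul, smul_eq_mul]

/-- conjugate fields -/
theorem ai_conj {E E' : Subfield ℂ} {σ : ℂ ≃+* ℂ} (hE : ∀ x ∈ E, σ x ∈ E') {ι : Type} {x : ι → ℂ}
    (h : AlgebraicIndependent E' x) : AlgebraicIndependent E fun i => σ.symm (x i) := by
  refine Pool.Agent.H135R2.VS.algInd_of_der fun v => ?_
  obtain ⟨D, hD⟩ := Pool.Agent.H135R2.VS.exists_der h fun i => σ (v i)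
  refine ⟨ofD E (cj σ (D.restrictScalars ℤ)) fun y hy => ?_, fun i => ?_⟩
  · change σ.symm (D (σ y)) = 0
    have h1 : D (σ y) = 0 := Derivation.map_algebraMap D (⟨σ y, hE y hy⟩ : E')
    rw [h1, map_zero]
  · rw [ofD_apply]
    change σ.symm (D (σ (σ.symm (x i)))) = v i
    rw [RingEquiv.apply_symm_apply, hD, RingEquiv.symm_apply_apply]

/-- **Homogeneity.** -/
theorem homog (hS : Tw S) (l0 : Fin n) {K : Subfield ℂ} [Countable K] {c : S → ℂ} (hc : Cm K c)
    (h : AlgebraicIndependent K (Sum.elim c fun q : {z : Fin n → ℂ // val c z = 0} × Fin n => (q.1 : Fin n → ℂ) q.2)) :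
    ∀ (k : ℕ) (z z' : Fin k → Fin n → ℂ), Function.Injective z → Function.Injective z' → (∀ i, val c (z i) = 0) →
      (∀ i, val c (z' i) = 0) → ∃ σ : ℂ ≃+* ℂ, (∀ a ∈ K, σ a = a) ∧ (∀ q, σ (c q) = c q) ∧
        ∀ i o, σ (ep (z i) o) = ep (z' i) o := by
  intro k
  induction k with
  | zero => exact fun z z' _ _ _ _ => ⟨RingEquiv.refl ℂ, fun _ _ => rfl, fun _ => rfl, fun i => Fin.elim0 i⟩
  | succ k ih =>
    intro z z' hi hi' hz hz'
    obtain ⟨σ, hK, hσ, hσz⟩ := ih (fun i => z i.castSucc) (fun i => z' i.castSucc)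
      (hi.comp (Fin.castSucc_injective k)) (hi'.comp (Fin.castSucc_injective k)) (fun i => hz _) fun i => hz' _
    have hne : ∀ i : Fin k, z i.castSucc ≠ z (Fin.last k) := fun i h1 => (Fin.castSucc_lt_last i).ne (hi h1)
    have hne' : ∀ i : Fin k, z' i.castSucc ≠ z' (Fin.last k) := fun i h1 => (Fin.castSucc_lt_last i).ne (hi' h1)
    have hcE := Ez_count K c fun i : Fin k => z i.castSucc
    have a1 := Ez_ai hS h (fun i : Fin k => hz i.castSucc) (hz (Fin.last k)) hne
    have a2 := Ez_ai hS h (fun i : Fin k => hz' i.castSucc) (hz' (Fin.last k)) hne'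
    have hmap : ∀ x ∈ Ez K c (fun i : Fin k => z i.castSucc), σ x ∈ Ez K c fun i : Fin k => z' i.castSucc := by
      have h1 : Ez K c (fun i : Fin k => z i.castSucc) ≤ (Ez K c fun i : Fin k => z' i.castSucc).comap
          (σ : ℂ →+* ℂ) := by
        refine Subfield.closure_le.2 ?_
        rintro x (hx | ⟨q, rfl⟩ | ⟨⟨i, o⟩, rfl⟩)
        · change σ x ∈ Ez K c fun i : Fin k => z' i.castSucc
          rw [hK x hx]
          exact Subfield.subset_closure (Or.inl hx)
        · change σ (c q) ∈ Ez K c fun i : Fin k => z' i.castSucc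
          rw [hσ]
          exact Subfield.subset_closure (Or.inr (Or.inl ⟨q, rfl⟩))
        · change σ (ep (z i.castSucc) o) ∈ Ez K c fun i : Fin k => z' i.castSucc
          rw [hσz]
          exact Subfield.subset_closure (Or.inr (Or.inr ⟨(i, o), rfl⟩))
      exact h1
    have a3 := ai_conj hmap a2
    have hinv := inv hS l0 hc h (τ := σ) (fun a => hK a a.2) hσ
    have hq' : ∀ f ∈ Vi c, eval (fun o => σ.symm (ep (z' (Fin.last k)) o)) f = 0 := by
      intro f hf
      have h1 := ev_map (σ : ℂ →+* ℂ) (fun o => σ.symm (ep (z' (Fin.last k)) o)) f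
      have h2 : (fun o => (σ : ℂ →+* ℂ) (σ.symm (ep (z' (Fin.last k)) o))) = ep (z' (Fin.last k)) :=
        funext fun o => σ.apply_symm_apply _
      rw [h2] at h1
      have h3 : map (σ : ℂ →+* ℂ) f ∈ Vi c := by
        rw [← hinv]
        refine mem_act.2 ?_
        have h4 : (mapEquiv (Fin n ⊕ Fin n) σ).symm (mapEquiv (Fin n ⊕ Fin n) σ f) ∈ Vi c := by
          rw [RingEquiv.symm_apply_apply]
          exact hf
        exact h4
      have h5 := h3 (z' (Fin.last k)) (hz' _)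
      have h6 : σ (eval (fun o => σ.symm (ep (z' (Fin.last k)) o)) f) = 0 := h1.trans h5
      exact (map_eq_zero σ).1 h6
    obtain ⟨ρ, hρE, hρ⟩ := conj_gen hS l0 hc h (E := Ez K c fun i : Fin k => z i.castSucc)
      (fun q => Subfield.subset_closure (Or.inr (Or.inl ⟨q, rfl⟩))) (q := ep (z (Fin.last k)))
      (fun f hf => hf _ (hz _)) hq' a1 a3
    refine ⟨ρ.trans σ, fun a ha => ?_, fun q => ?_, fun i o => ?_⟩
    · rw [RingEquiv.trans_apply, hρE a (Subfield.subset_closure (Or.inl ha)), hK a ha]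
    · rw [RingEquiv.trans_apply, hρE _ (Subfield.subset_closure (Or.inr (Or.inl ⟨q, rfl⟩))), hσ]
    · rw [RingEquiv.trans_apply]
      refine Fin.lastCases ?_ (fun i => ?_) i
      · rw [hρ, RingEquiv.apply_symm_apply]
      · rw [hρE _ (Subfield.subset_closure (Or.inr (Or.inr ⟨(i, o), rfl⟩))), hσz]

end Pool.Agent.V8H73.SF
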