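import Pool.Agent.V8H73.SF.Hom

/-!
# The variety of almost all systems is irreducible
-/

set_option autoImplicit false
set_option linter.unusedSectionVars false

open MvPolynomial MeasureTheory Filter Topology

namespace Pool.Agent.V8H73.SF

open Pool.Agent.V8H73.SE

open Pool.Agent.V8H73.AN (Ex Four Ph ez mo JJ Pj ιX ev_map Pj_map der_ev null_rel)

/-- almost all points are independent -/
theorem ae_ai {F : Type} [Field F] [Algebra F ℂ] [Countable F] {X : Type} [Fintype X] :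
    ∀ᵐ t : X → ℂ, AlgebraicIndependent F t := by
  classical
  have hcount := Pool.Agent.Y563.SE.countable_mvPolynomial X F
  have hI : Pool.Agent.N207.AX.Ind (Set.univ : Set (X → ℂ)) (fun e : Empty => (e.elim : (X → ℂ) → ℂ)) := by
    intro p hp
    obtain ⟨r, rfl⟩ : ∃ r, p = C r := ⟨_, MvPolynomial.eq_C_of_isEmpty p⟩
    have h1 : r = 0 := MvPolynomial.funext fun z => by
      have h2 := hp z trivial
      rw [eval₂_C] at h2
      rw [h2, map_zero]
    rw [h1, map_zero]
  rw [ae_iff]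
  refine measure_mono_null (t := ⋃ p : {p : MvPolynomial X F // p ≠ 0}, {t : X → ℂ | t ∈ Set.univ ∧
    eval (Sum.elim t fun e : Empty => (e.elim : (X → ℂ) → ℂ) t) (rename Sum.inl (map (algebraMap F ℂ) p.1)) = 0})
    ?_ (measure_iUnion_null fun p => ?_)
  · intro t ht
    have ht' : ¬ AlgebraicIndependent F t := ht
    rw [algebraicIndependent_iff] at ht'
    push Not at ht'
    obtain ⟨p, hp1, hp2⟩ := ht'
    refine Set.mem_iUnion.2 ⟨⟨p, hp2⟩, trivial, ?_⟩
    rw [eval_rename]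
    have h1 : (Sum.elim t fun e : Empty => (e.elim : (X → ℂ) → ℂ) t) ∘ Sum.inl = t := rfl
    rw [h1, eval_map]
    exact hp1
  · refine null_rel isOpen_univ isPreconnected_univ (fun e => e.elim) hI fun h => p.2 ?_
    have h1 : map (algebraMap F ℂ) p.1 = 0 := rename_injective _ Sum.inl_injective (by rw [h, map_zero])
    exact map_injective _ (algebraMap F ℂ).injective (by rw [h1, map_zero])

/-- towers -/
theorem ai_tower' {K E : Subfield ℂ} {ι κ : Type} {x : ι → ℂ} (hx : AlgebraicIndependent K x) (hKE : K ≤ E)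
    (hs : ∀ i, x i ∈ E) {z : κ → ℂ} (hz : AlgebraicIndependent E z) :
    AlgebraicIndependent K (Sum.elim x z) := by
  refine Pool.Agent.H135R2.VS.algInd_of_der fun v => ?_
  obtain ⟨D1, hD1⟩ := Pool.Agent.H135R2.VS.exists_der hx fun i => v (Sum.inl i)
  obtain ⟨D2, hD2⟩ := Pool.Agent.H135R2.VS.exists_der hz fun i => v (Sum.inr i) - D1 (z i)
  have h2 : ∀ x ∈ E, D2 x = 0 := fun x hx => Derivation.map_algebraMap D2 (⟨x, hx⟩ : E)
  let D : Derivation ℤ ℂ ℂ := D1.restrictScalars ℤ + D2.restrictScalars ℤ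
  have hD : ∀ x, D x = D1 x + D2 x := fun x => rfl
  refine ⟨ofD K D fun x hx => ?_, ?_⟩
  · change D x = 0
    rw [hD, h2 x (hKE hx), add_zero]
    exact Derivation.map_algebraMap D1 (⟨x, hx⟩ : K)
  · rintro (i | i)
    · rw [ofD_apply, hD]
      change D1 (x i) + D2 (x i) = _
      rw [hD1, h2 _ (hs i), add_zero]
    · rw [ofD_apply, hD]
      change D1 (z i) + D2 (z i) = _
      rw [hD2, add_sub_cancel]

variable {n : ℕ} {S : Finset (Fin n × Ex n)}

theorem dPj_sum' (c : S → ℂ) (p : Fin n ⊕ Fin n → ℂ) (j : Fin n) (o : Fin n ⊕ Fin n) :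
    eval p (pderiv o (Pj c j)) = ∑ q : S, if q.1.1 = j then c q * eval p (pderiv o (monomial q.1.2 1)) else 0 := by
  unfold Pj
  rw [map_sum, map_sum]
  refine Finset.sum_congr rfl fun q _ => ?_
  split_ifs
  · have h1 : (monomial q.1.2 (c q) : MvPolynomial (Fin n ⊕ Fin n) ℂ) = C (c q) * monomial q.1.2 1 := by
      rw [C_mul_monomial, mul_one]
    rw [h1, pderiv_C_mul, map_mul, eval_C]
  · rw [map_zero, map_zero]

/-- the derivative of the values -/
theorem der_full {K : Subfield ℂ} (δ : Derivation K ℂ ℂ) (c : S → ℂ) (p : Fin n ⊕ Fin n → ℂ) (j : Fin n) :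
    δ (Pv c p j) = Pv (fun q => δ (c q)) p j + ∑ o, eval p (pderiv o (Pj c j)) * δ (p o) := by
  classical
  have hm : ∀ e : Ex n, δ (eval p (monomial e (1 : ℂ))) = ∑ o, eval p (pderiv o (monomial e (1 : ℂ))) * δ (p o) := by
    intro e
    have h1 := der_ev δ p (monomial e (1 : K))
    rw [map_monomial, map_one] at h1
    rw [h1]
    refine Finset.sum_congr rfl fun o _ => ?_
    rw [← pderiv_map, map_monomial, map_one]
  rw [Pv_sum, Pv_sum, map_sum]
  have h2 : ∑ o, eval p (pderiv o (Pj c j)) * δ (p o) =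
      ∑ q : S, if q.1.1 = j then c q * ∑ o, eval p (pderiv o (monomial q.1.2 1)) * δ (p o) else 0 := by
    simp only [dPj_sum', Finset.sum_mul]
    rw [Finset.sum_comm]
    refine Finset.sum_congr rfl fun q _ => ?_
    split_ifs
    · rw [Finset.mul_sum]
      exact Finset.sum_congr rfl fun o _ => by ring
    · simp
  rw [h2, ← Finset.sum_add_distrib]
  refine Finset.sum_congr rfl fun q _ => ?_
  split_ifs
  · rw [Derivation.leibniz, hm, smul_eq_mul, smul_eq_mul]
    ring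
  · rw [map_zero, add_zero]

/-- the values, if only the constant coefficients do not vanish -/
theorem Pv_one (hS : Tw S) {a : S → ℂ} (ha : ∀ q : S, (∀ j, q ≠ ⟨(j, 0), hS.h0 j⟩) → a q = 0)
    (p : Fin n ⊕ Fin n → ℂ) (j : Fin n) : Pv a p j = a ⟨(j, 0), hS.h0 j⟩ := by
  classical
  rw [Pv_sum, Finset.sum_eq_single ⟨(j, 0), hS.h0 j⟩]
  · rw [if_pos rfl, monomial_zero', map_one, map_one, mul_one]
  · intro q _ hq
    split_ifs with h3
    · rw [ha q, zero_mul]
      intro i hi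
      have h4 : i = j := by rw [← h3, hi]
      exact hq (by rw [hi, h4])
    · rfl
  · exact fun h => absurd (Finset.mem_univ _) h

/-- **The variety is smooth.** -/
theorem rows_ind (hS : Tw S) {K : Subfield ℂ} {c : S → ℂ} (hc : AlgebraicIndependent K c)
    {q : Fin n ⊕ Fin n → ℂ} (hq : Pv c q = 0) :
    LinearIndependent ℂ (fun j : Fin n => fun o => eval q (pderiv o (Pj c j))) := by
  classical
  rw [Fintype.linearIndependent_iff]
  intro g hg j0
  obtain ⟨D, hD⟩ := Pool.Agent.H135R2.VS.exists_der hc fun s => if s = ⟨(j0, 0), hS.h0 j0⟩ then 1 else 0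
  have h1 : ∀ j, Pv (fun s => D (c s)) q j = if j = j0 then 1 else 0 := by
    intro j
    rw [Pv_one hS (fun s hs => by rw [hD, if_neg (hs j0)]), hD]
    by_cases h : j = j0
    · subst h
      rw [if_pos rfl, if_pos rfl]
    · rw [if_neg h, if_neg]
      intro h2
      exact h (congrArg (fun s : S => s.1.1) h2)
  have h2 : ∑ j, g j * D (Pv c q j) = g j0 := by
    simp only [der_full, h1, mul_add, Finset.sum_add_distrib]
    have h3 : ∑ j, g j * ∑ o, eval q (pderiv o (Pj c j)) * D (q o) = 0 := by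
      simp only [Finset.mul_sum]
      rw [Finset.sum_comm]
      refine Finset.sum_eq_zero fun o _ => ?_
      have h4 := congrFun hg o
      rw [Finset.sum_apply] at h4
      simp only [Pi.smul_apply, smul_eq_mul, Pi.zero_apply] at h4
      have h5 : ∑ j, g j * (eval q (pderiv o (Pj c j)) * D (q o)) =
          (∑ j, g j * eval q (pderiv o (Pj c j))) * D (q o) := by
        rw [Finset.sum_mul]
        exact Finset.sum_congr rfl fun j _ => by ring
      rw [h5, h4, zero_mul]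
    rw [h3, add_zero]
    simp
  rw [← h2, hq]
  simp

/-- a matrix with linearly independent columns has an invertible square submatrix -/
theorem exists_rows {ρ : Type} [Fintype ρ] (A : Matrix ρ (Fin n) ℂ)
    (h : LinearIndependent ℂ (fun j : Fin n => (fun i => A i j : ρ → ℂ))) :
    ∃ R : Fin n → ρ, (A.submatrix R id).det ≠ 0 := by
  classical
  have hrk : A.rank = Fintype.card (Fin n) := by
    rw [Matrix.rank_eq_finrank_span_cols]
    have := linearIndependent_iff_card_eq_finrank_span.mp h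
    rw [this]
    rfl
  rw [Matrix.rank_eq_finrank_span_row] at hrk
  obtain ⟨f, hf1, -, hf3⟩ := Submodule.exists_fun_fin_finrank_span_eq ℂ (Set.range A.row)
  have e : Fin n ≃ Fin (Module.finrank ℂ (Submodule.span ℂ (Set.range A.row))) :=
    Fintype.equivOfCardEq (by rw [hrk]; simp)
  choose R hR using fun j : Fin n => hf1 (e j)
  refine ⟨R, ?_⟩
  have : LinearIndependent ℂ (fun j : Fin n => (A.submatrix R id).row j) := by
    have h2 := hf3.comp e e.injective
    have h3 : (fun j : Fin n => (A.submatrix R id).row j) = f ∘ e := by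
      ext j k
      simp only [Function.comp]
      rw [← hR j]
      rfl
    rw [h3]
    exact h2
  have h3 := (Matrix.linearIndependent_rows_iff_isUnit).mp this
  exact ((Matrix.isUnit_iff_isUnit_det _).mp h3).ne_zero

theorem ev_strict (P : MvPolynomial (Fin n ⊕ Fin n) ℂ) (p : Fin n ⊕ Fin n → ℂ) :
    ∃ L : (Fin n ⊕ Fin n → ℂ) →L[ℂ] ℂ, (∀ v, L v = ∑ o, eval p (pderiv o P) * v o) ∧
      HasStrictFDerivAt (fun p : Fin n ⊕ Fin n → ℂ => eval p P) L p := by
  classical
  induction P using MvPolynomial.induction_on with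
  | C a =>
    refine ⟨0, fun v => ?_, ?_⟩
    · simp only [pderiv_C, map_zero, zero_mul, Finset.sum_const_zero]
      rfl
    · simp only [eval_C]
      exact hasStrictFDerivAt_const (x := p) a
  | add P Q hP hQ =>
    obtain ⟨L1, h1, h1'⟩ := hP
    obtain ⟨L2, h2, h2'⟩ := hQ
    refine ⟨L1 + L2, fun v => ?_, ?_⟩
    · have h3 : (L1 + L2) v = L1 v + L2 v := rfl
      rw [h3, h1, h2, ← Finset.sum_add_distrib]
      refine Finset.sum_congr rfl fun l _ => ?_
      simp only [map_add]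
      ring
    · simp only [map_add]
      exact h1'.add h2'
  | mul_X P o hP =>
    obtain ⟨L1, h1, h1'⟩ := hP
    refine ⟨eval p P • (ContinuousLinearMap.proj o : (Fin n ⊕ Fin n → ℂ) →L[ℂ] ℂ) + p o • L1, fun v => ?_, ?_⟩
    · have h3 : (eval p P • (ContinuousLinearMap.proj o : (Fin n ⊕ Fin n → ℂ) →L[ℂ] ℂ) + p o • L1) v =
          eval p P * v o + p o * L1 v := rfl
      have h4 : v o = ∑ x, (if x = o then 1 else 0) * v x := by simp
      rw [h3, h1, h4, Finset.mul_sum, Finset.mul_sum, ← Finset.sum_add_distrib]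
      refine Finset.sum_congr rfl fun x _ => ?_
      rw [Derivation.leibniz, pderiv_X]
      simp only [smul_eq_mul, map_add, map_mul, eval_X]
      have e1 : eval p ((Pi.single x 1 : Fin n ⊕ Fin n → MvPolynomial (Fin n ⊕ Fin n) ℂ) o) =
          if x = o then 1 else 0 := by
        by_cases h : x = o
        · subst h
          simp
        · rw [if_neg h, Pi.single_eq_of_ne (Ne.symm h), map_zero]
      rw [e1]
      ring
    · simp only [map_mul, eval_X]
      exact h1'.mul (ContinuousLinearMap.hasStrictFDerivAt (ContinuousLinearMap.proj o : (Fin n ⊕ Fin n → ℂ) →L[ℂ] ℂ))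

/-- **Points near a smooth point.** -/
theorem loc {c : S → ℂ} {q : Fin n ⊕ Fin n → ℂ} (hq : Pv c q = 0)
    (hB : LinearIndependent ℂ (fun j : Fin n => fun o => eval q (pderiv o (Pj c j)))) :
    ∃ R : Fin n → Fin n ⊕ Fin n, Function.Injective R ∧ ∀ U ∈ 𝓝 q,
      ∀ᶠ t in 𝓝 (fun o : {o // ∀ i, R i ≠ o} => q o), ∃ p ∈ U, Pv c p = 0 ∧ ∀ o : {o // ∀ i, R i ≠ o}, p o = t o := by
  classical
  obtain ⟨R, hR⟩ := exists_rows (Matrix.of fun (o : Fin n ⊕ Fin n) (j : Fin n) => eval q (pderiv o (Pj c j))) hB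
  have hRi : Function.Injective R := by
    intro i i' h
    by_contra hne
    refine hR (Matrix.det_zero_of_row_eq hne ?_)
    funext j
    simp only [Matrix.submatrix_apply, h]
  refine ⟨R, hRi, ?_⟩
  choose L hL hL' using fun j : Fin n => ev_strict (Pj c j) q
  let Φ : (Fin n ⊕ Fin n → ℂ) → (Fin n → ℂ) × ({o // ∀ i, R i ≠ o} → ℂ) := fun p => (Pv c p, fun o => p o)
  let L2 : (Fin n ⊕ Fin n → ℂ) →L[ℂ] ({o // ∀ i, R i ≠ o} → ℂ) :=
    ContinuousLinearMap.pi fun o : {o // ∀ i, R i ≠ o} => ContinuousLinearMap.proj (o : Fin n ⊕ Fin n)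
  let Φ' : (Fin n ⊕ Fin n → ℂ) →L[ℂ] (Fin n → ℂ) × ({o // ∀ i, R i ≠ o} → ℂ) := (ContinuousLinearMap.pi L).prod L2
  have hΦ : HasStrictFDerivAt Φ Φ' q :=
    (hasStrictFDerivAt_pi.2 fun j => hL' j).prodMk (ContinuousLinearMap.hasStrictFDerivAt L2)
  have hinj : Function.Injective (Φ' : (Fin n ⊕ Fin n → ℂ) →ₗ[ℂ] (Fin n → ℂ) × ({o // ∀ i, R i ≠ o} → ℂ)) := by
    rw [injective_iff_map_eq_zero]
    intro v hv
    have h1 : ∀ j, ∑ o, eval q (pderiv o (Pj c j)) * v o = 0 := by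
      intro j
      rw [← hL j]
      exact congrFun (congrArg Prod.fst hv) j
    have h2 : ∀ o, (∀ i, R i ≠ o) → v o = 0 := fun o ho => congrFun (congrArg Prod.snd hv) ⟨o, ho⟩
    have h3 : (Matrix.of fun (j i : Fin n) => eval q (pderiv (R i) (Pj c j))).mulVec (fun i => v (R i)) = 0 := by
      funext j
      have h4 : ∑ i, eval q (pderiv (R i) (Pj c j)) * v (R i) = ∑ o, eval q (pderiv o (Pj c j)) * v o := by
        rw [← Finset.sum_subset (Finset.subset_univ (Finset.univ.image R)) fun o _ ho => ?_,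
          Finset.sum_image fun i _ i' _ h => hRi h]
        rw [h2 o fun i hi => ho (Finset.mem_image.2 ⟨i, Finset.mem_univ _, hi⟩), mul_zero]
      exact h4.trans (h1 j)
    have h5 : (Matrix.of fun (j i : Fin n) => eval q (pderiv (R i) (Pj c j))).det ≠ 0 := by
      rw [← Matrix.det_transpose]
      exact hR
    have h6 := Matrix.eq_zero_of_mulVec_eq_zero h5 h3
    funext o
    by_cases ho : ∀ i, R i ≠ o
    · exact h2 o ho
    · push Not at ho
      obtain ⟨i, rfl⟩ := ho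
      exact congrFun h6 i
  have hcard : Fintype.card {o // ∀ i, R i ≠ o} = n := by
    have e1 : {o // ∀ i, R i ≠ o} ⊕ Fin n ≃ Fin n ⊕ Fin n :=
      (Equiv.sumCongr (Equiv.subtypeEquivRight fun q => by simp only [Set.mem_compl_iff, Set.mem_range, not_exists, ne_eq])
        (Equiv.ofInjective R hRi)).trans
        ((Equiv.sumComm _ _).trans (Equiv.Set.sumCompl (Set.range R)))
    have e2 := Fintype.card_congr e1
    rw [Fintype.card_sum, Fintype.card_sum, Fintype.card_fin] at e2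
    omega
  have hfr : Module.finrank ℂ (Fin n ⊕ Fin n → ℂ) = Module.finrank ℂ ((Fin n → ℂ) × ({o // ∀ i, R i ≠ o} → ℂ)) := by
    rw [Module.finrank_prod, Module.finrank_fintype_fun_eq_card, Module.finrank_fintype_fun_eq_card,
      Module.finrank_fintype_fun_eq_card, hcard, Fintype.card_sum, Fintype.card_fin]
  have hsur : (Φ' : (Fin n ⊕ Fin n → ℂ) →ₗ[ℂ] (Fin n → ℂ) × ({o // ∀ i, R i ≠ o} → ℂ)).range = ⊤ :=
    LinearMap.range_eq_top.2 ((LinearMap.injective_iff_surjective_of_finrank_eq_finrank hfr).1 hinj)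
  have hmap := hΦ.map_nhds_eq_of_surj hsur
  intro U hU
  have h1 : Φ '' U ∈ 𝓝 (Φ q) := by
    rw [← hmap]
    exact Filter.image_mem_map hU
  have h2 : Tendsto (fun t : {o // ∀ i, R i ≠ o} → ℂ => ((0 : Fin n → ℂ), t))
      (𝓝 fun o : {o // ∀ i, R i ≠ o} => q o) (𝓝 (Φ q)) := by
    have h3 : Φ q = ((0 : Fin n → ℂ), fun o : {o // ∀ i, R i ≠ o} => q o) := by
      change (Pv c q, _) = _
      rw [hq]
    rw [h3]
    exact tendsto_const_nhds.prodMk_nhds tendsto_id
  filter_upwards [h2.eventually h1] with t ht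
  obtain ⟨p, hp, hp'⟩ := ht
  exact ⟨p, hp, congrArg Prod.fst hp', fun o => congrFun (congrArg Prod.snd hp') o⟩

/-- the family given by one point -/
theorem fm1_ind (hS : Tw S) {K : Subfield ℂ} {c : S → ℂ} {p : Fin n ⊕ Fin n → ℂ} (hp : Pv c p = 0) {J : Type}
    [Fintype J] (hJ : Fintype.card J = n) {e : J → Fin n ⊕ Fin n}
    (hI : AlgebraicIndependent K (Sum.elim c fun i => p (e i))) :
    AlgebraicIndependent K (Sum.elim (fun q : {q : S // ∀ j, q ≠ ⟨(j, 0), hS.h0 j⟩} => c q.1) p) := by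
  classical
  have hinj : Function.Injective (fun j : Fin n => (⟨(j, 0), hS.h0 j⟩ : S)) := fun i j hij =>
    congrArg (fun u : S => u.1.1) hij
  have hcard : Fintype.card (S ⊕ J) = Fintype.card ({q : S // ∀ j, q ≠ ⟨(j, 0), hS.h0 j⟩} ⊕ (Fin n ⊕ Fin n)) := by
    have e1 : {q : S // ∀ j, q ≠ ⟨(j, 0), hS.h0 j⟩} ⊕ Fin n ≃ S :=
      (Equiv.sumCongr (Equiv.subtypeEquivRight fun q => by simp only [Set.mem_compl_iff, Set.mem_range, not_exists, ne_eq, eq_comm])
        (Equiv.ofInjective _ hinj)).trans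
        ((Equiv.sumComm _ _).trans (Equiv.Set.sumCompl (Set.range fun j : Fin n => (⟨(j, 0), hS.h0 j⟩ : S))))
    have e2 := Fintype.card_congr e1
    rw [Fintype.card_sum, Fintype.card_fin] at e2
    rw [Fintype.card_sum, Fintype.card_sum, Fintype.card_sum, Fintype.card_fin, hJ, ← e2]
    ring
  refine (Pool.Agent.V8H73.AN.count hI fun δ hδ => ?_).2 hcard
  have h1 : ∀ o, δ (p o) = 0 := fun o => hδ (Sum.inr o)
  have h5 : ∀ q : S, (∀ j, q ≠ ⟨(j, 0), hS.h0 j⟩) → δ (c q) = 0 := fun q hq => hδ (Sum.inl ⟨q, hq⟩)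
  rintro (q | i)
  · change δ (c q) = 0
    by_cases h3 : ∃ j, q = ⟨(j, 0), hS.h0 j⟩
    · obtain ⟨j, rfl⟩ := h3
      have h4 := Pv_one hS h5 p j
      rw [← h4, ← der_Pv δ h1, hp]
      exact map_zero δ
    · push Not at h3
      exact h5 q h3
  · exact h1 _

/-- **Generic points are conjugate.** -/
theorem conj1 (hS : Tw S) {K : Subfield ℂ} [Countable K] {c : S → ℂ} {p p' : Fin n ⊕ Fin n → ℂ} (hp : Pv c p = 0)
    (hp' : Pv c p' = 0)
    (h : AlgebraicIndependent K (Sum.elim (fun q : {q : S // ∀ j, q ≠ ⟨(j, 0), hS.h0 j⟩} => c q.1) p))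
    (h' : AlgebraicIndependent K (Sum.elim (fun q : {q : S // ∀ j, q ≠ ⟨(j, 0), hS.h0 j⟩} => c q.1) p')) :
    ∃ σ : ℂ ≃+* ℂ, (∀ a : K, σ a = a) ∧ (∀ q, σ (c q) = c q) ∧ ∀ o, σ (p o) = p' o := by
  obtain ⟨σ, hK, hσ⟩ := exists_sigma h h'
  have e1 : ∀ o, σ (p o) = p' o := fun o => hσ (Sum.inr o)
  have e5 : ∀ q : S, (∀ j, q ≠ ⟨(j, 0), hS.h0 j⟩) → σ (c q) - c q = 0 := fun q hq => sub_eq_zero.2 (hσ (Sum.inl ⟨q, hq⟩))
  have e6 : Pv (fun q => σ (c q) - c q) p' = 0 := by
    rw [Pv_sub, hp', sub_zero]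
    funext j
    have h1 := map_Pv σ c p j
    rw [hp] at h1
    rw [show p' = fun o => σ (p o) from (funext e1).symm, ← h1]
    exact map_zero σ
  refine ⟨σ, hK, fun q => ?_, e1⟩
  by_cases h3 : ∃ j, q = ⟨(j, 0), hS.h0 j⟩
  · obtain ⟨j, rfl⟩ := h3
    have h4 := Pv_one hS e5 p' j
    rw [e6] at h4
    exact sub_eq_zero.1 h4.symm
  · push Not at h3
    exact sub_eq_zero.1 (e5 q h3)

/-- **The variety is irreducible.** -/
theorem irr (hS : Tw S) (l0 : Fin n) {K : Subfield ℂ} [Countable K] {c : S → ℂ} (hc : Cm K c)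
    (h : AlgebraicIndependent K (Sum.elim c fun q : {z : Fin n → ℂ // val c z = 0} × Fin n => (q.1 : Fin n → ℂ) q.2))
    {P : Ideal (MvPolynomial (Fin n ⊕ Fin n) ℂ)} (hP : P ∈ (Ideal.span (Set.range (Pj c))).minimalPrimes) :
    P = Vi c := by
  classical
  have hPp : P.IsPrime := hP.1.1
  have hfin := (Ideal.span (Set.range (Pj c))).finite_minimalPrimes_of_isNoetherianRing
    (MvPolynomial (Fin n ⊕ Fin n) ℂ)
  have hAc : AlgebraicIndependent K c := h.comp Sum.inl Sum.inl_injective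
  -- a polynomial in all other components
  have h1 : ∃ f, f ∉ P ∧ ∀ P' ∈ (Ideal.span (Set.range (Pj c))).minimalPrimes, P' ≠ P → f ∈ P' := by
    by_contra hcon
    push Not at hcon
    have h2 : ∏ P' ∈ hfin.toFinset.erase P, P' ≤ P := by
      intro f hf
      by_contra hfP
      obtain ⟨P', h3, h4, h5⟩ := hcon f hfP
      exact h5 ((Ideal.prod_le_inf.trans (Finset.inf_le (Finset.mem_erase.2 ⟨h4, hfin.mem_toFinset.2 h3⟩))) hf)
    obtain ⟨P', h3, h4⟩ := hPp.prod_le.1 h2
    rw [Finset.mem_erase, Set.Finite.mem_toFinset] at h3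
    exact h3.1 (le_antisymm h4 (hP.2 h3.2.1 h4))
  obtain ⟨f, hfP, hf⟩ := h1
  -- a point
  have h2 : ∃ q : Fin n ⊕ Fin n → ℂ, (∀ g ∈ P, eval q g = 0) ∧ eval q f ≠ 0 := by
    by_contra hcon
    push Not at hcon
    apply hfP
    rw [← MvPolynomial.IsPrime.vanishingIdeal_zeroLocus (K := ℂ) P, mem_vanishingIdeal_iff]
    intro x hx
    exact hcon x fun g hg => hx g hg
  obtain ⟨q, hq, hqf⟩ := h2
  have hPc : ∀ j, Pj c j ∈ P := fun j => hP.1.2 (Ideal.subset_span ⟨j, rfl⟩)
  have hq0 : Pv c q = 0 := funext fun j => hq _ (hPc j)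
  obtain ⟨R, hRi, hR⟩ := loc hq0 (rows_ind hS hAc hq0)
  have hU : {p : Fin n ⊕ Fin n → ℂ | eval p f ≠ 0} ∈ 𝓝 q :=
    (MvPolynomial.continuous_eval f).continuousAt.eventually_ne hqf
  obtain ⟨E, hEc, hKE, hcE⟩ : ∃ E : Subfield ℂ, Countable E ∧ K ≤ E ∧ ∀ s, c s ∈ E :=
    ⟨Ez K c (fun i : Fin 0 => (0 : Fin n → ℂ)), Ez_count K c _, fun x hx => Subfield.subset_closure (Or.inl hx),
      fun s => Subfield.subset_closure (Or.inr (Or.inl ⟨s, rfl⟩))⟩
  have h3 : Dense {t : {o // ∀ i, R i ≠ o} → ℂ | AlgebraicIndependent E t} := Measure.dense_of_ae ae_ai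
  obtain ⟨t, ⟨p, hpU, hp0, hpt⟩, htI⟩ := mem_closure_iff_nhds.1 (h3 fun o : {o // ∀ i, R i ≠ o} => q o) _
    (hR _ hU)
  have hcard : Fintype.card {o // ∀ i, R i ≠ o} = n := by
    have e1 : {o // ∀ i, R i ≠ o} ⊕ Fin n ≃ Fin n ⊕ Fin n :=
      (Equiv.sumCongr (Equiv.subtypeEquivRight fun q => by simp only [Set.mem_compl_iff, Set.mem_range, not_exists, ne_eq])
        (Equiv.ofInjective R hRi)).trans
        ((Equiv.sumComm _ _).trans (Equiv.Set.sumCompl (Set.range R)))
    have e2 := Fintype.card_congr e1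
    rw [Fintype.card_sum, Fintype.card_sum, Fintype.card_fin] at e2
    omega
  have h4 : AlgebraicIndependent K (Sum.elim c fun o : {o // ∀ i, R i ≠ o} => p o) := by
    have h5 : (fun o : {o // ∀ i, R i ≠ o} => p o) = t := funext hpt
    rw [h5]
    exact ai_tower' hAc hKE hcE htI
  obtain ⟨z, hz⟩ := hc.inf.nonempty
  have hz0 : Pv c (ep z) = 0 := by rw [Pv_ep, hz]
  have h5 := fm1_ind hS hz0 (J := Fin n) (Fintype.card_fin n) (e := Sum.inl) (sub1 h hz)
  have h6 := fm1_ind hS hp0 hcard (e := fun o : {o // ∀ i, R i ≠ o} => (o : Fin n ⊕ Fin n)) h4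
  obtain ⟨σ, hK, hσ, hσp⟩ := conj1 hS hz0 hp0 h5 h6
  have h7 := act_Cq hσ hσp
  rw [Cq_ep hS l0 hc h hz, Set.image_singleton, inv hS l0 hc h hK hσ] at h7
  -- the component of the point
  have hker : Ideal.span (Set.range (Pj c)) ≤ RingHom.ker (eval p : MvPolynomial (Fin n ⊕ Fin n) ℂ →+* ℂ) := by
    rw [Ideal.span_le]
    rintro _ ⟨j, rfl⟩
    exact congrFun hp0 j
  have hkp : (RingHom.ker (eval p : MvPolynomial (Fin n ⊕ Fin n) ℂ →+* ℂ)).IsPrime := RingHom.ker_isPrime _
  obtain ⟨P', hP', hP''⟩ := Ideal.exists_minimalPrimes_le hker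
  have h8 : P' = P := by
    by_contra hne
    exact hpU (hP'' (hf P' hP' hne))
  have h9 : P ∈ Cq c p := ⟨hP, fun g hg => hP'' (by rw [h8]; exact hg)⟩
  rw [← h7] at h9
  exact h9

/-- **The radical is prime.** -/
theorem rad_eq (hS : Tw S) (l0 : Fin n) {K : Subfield ℂ} [Countable K] {c : S → ℂ} (hc : Cm K c)
    (h : AlgebraicIndependent K (Sum.elim c fun q : {z : Fin n → ℂ // val c z = 0} × Fin n => (q.1 : Fin n → ℂ) q.2)) :
    (Ideal.span (Set.range (Pj c))).radical = Vi c := by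
  rw [← Ideal.sInf_minimalPrimes]
  obtain ⟨m1, m2, m3⟩ := Vi_main hS l0 hc h
  exact le_antisymm (sInf_le m2) (le_sInf fun P hP => (irr hS l0 hc h hP).ge)

end Pool.Agent.V8H73.SF
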