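import Pool.Agent.V8H73.SF.Pex
import Pool.Agent.V8H73.SE.Pey

/-!
# Roots of the exponentials
-/

set_option autoImplicit false
set_option linter.unusedSectionVars false

open MvPolynomial

namespace Pool.Agent.V8H73.SF

open Pool.Agent.V8H73.SE

open Pool.Agent.V8H73.AN (Ex Four Ph ez mo JJ Pj ιX ev_map Pj_map Ph_deriv Dl Dl_apply)

variable {n : ℕ} {S : Finset (Fin n × Ex n)}

/-- the exponents after the substitution of `y ^ M` -/
noncomputable def up (M : ℕ) (e : Ex n) : Ex n :=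
  Finsupp.equivFunOnFinite.symm (Sum.elim (fun l => e (Sum.inl l)) fun l => M * e (Sum.inr l))

theorem up_inl (M : ℕ) (e : Ex n) (l : Fin n) : up M e (Sum.inl l) = e (Sum.inl l) := rfl

theorem up_inr (M : ℕ) (e : Ex n) (l : Fin n) : up M e (Sum.inr l) = M * e (Sum.inr l) := rfl

/-- the embedding of the exponents -/
noncomputable def upE (M : ℕ) (hM : M ≠ 0) : Fin n × Ex n ↪ Fin n × Ex n where
  toFun := fun s => (s.1, up M s.2)
  inj' := by
    intro s t h
    obtain ⟨h1, h2⟩ := Prod.mk.inj h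
    refine Prod.ext h1 (Finsupp.ext ?_)
    rintro (l | l)
    · have h3 := DFunLike.congr_fun h2 (Sum.inl l)
      exact h3
    · have h3 := DFunLike.congr_fun h2 (Sum.inr l)
      rw [up_inr, up_inr] at h3
      exact Nat.eq_of_mul_eq_mul_left (Nat.pos_of_ne_zero hM) h3

/-- the support -/
noncomputable def SM (S : Finset (Fin n × Ex n)) (M : ℕ) (hM : M ≠ 0) : Finset (Fin n × Ex n) := S.map (upE M hM)

theorem SM_tw (hS : Four S) (M : ℕ) (hM : M ≠ 0) : Tw (SM S M hM) := by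
  constructor
  · intro j
    refine Finset.mem_map.2 ⟨(j, 0), hS.h0 j, Prod.ext rfl (Finsupp.ext ?_)⟩
    rintro (l | l)
    · rfl
    · change M * 0 = 0
      rw [mul_zero]
  · intro j l0
    refine Finset.mem_map.2 ⟨(j, Finsupp.single (Sum.inl l0) 1), hS.hx j l0, Prod.ext rfl (Finsupp.ext ?_)⟩
    rintro (l | l)
    · rfl
    · change up M (Finsupp.single (Sum.inl l0) 1) (Sum.inr l) = (Finsupp.single (Sum.inl l0) 1 : Ex n) (Sum.inr l)
      rw [up_inr, Finsupp.single_apply, if_neg (by simp), mul_zero]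

/-- the bijection of the indices -/
noncomputable def fi (S : Finset (Fin n × Ex n)) (M : ℕ) (hM : M ≠ 0) : S ≃ SM S M hM :=
  Equiv.ofBijective (fun s => ⟨upE M hM s, Finset.mem_map_of_mem _ s.2⟩) ⟨fun s t h =>
    Subtype.ext ((upE M hM).injective (congrArg Subtype.val h)), fun t => by
      obtain ⟨s, hs, hst⟩ := Finset.mem_map.1 t.2
      exact ⟨⟨s, hs⟩, Subtype.ext hst⟩⟩

theorem fi_fst (M : ℕ) (hM : M ≠ 0) (s : S) : (fi S M hM s).1.1 = s.1.1 := rfl

theorem fi_snd (M : ℕ) (hM : M ≠ 0) (s : S) : (fi S M hM s).1.2 = up M s.1.2 := rfl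

/-- the degree in `x` -/
def xd (e : Ex n) : ℕ := ∑ l, e (Sum.inl l)

/-- the coefficients -/
noncomputable def cM (c : S → ℂ) (M : ℕ) (hM : M ≠ 0) (t : SM S M hM) : ℂ :=
  c ((fi S M hM).symm t) * (M : ℂ) ^ xd ((fi S M hM).symm t).1.2

theorem cM_fi (c : S → ℂ) (M : ℕ) (hM : M ≠ 0) (s : S) : cM c M hM (fi S M hM s) = c s * (M : ℂ) ^ xd s.1.2 := by
  unfold cM
  rw [Equiv.symm_apply_apply]

/-- the substitution -/
noncomputable def lift (M : ℕ) (p : Fin n ⊕ Fin n → ℂ) : Fin n ⊕ Fin n → ℂ :=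
  Sum.elim (fun l => M * p (Sum.inl l)) fun l => p (Sum.inr l) ^ M

theorem mon_ev (p : Fin n ⊕ Fin n → ℂ) (e : Ex n) : eval p (monomial e (1 : ℂ)) =
    (∏ l, p (Sum.inl l) ^ e (Sum.inl l)) * ∏ l, p (Sum.inr l) ^ e (Sum.inr l) := by
  rw [eval_monomial, one_mul, Finsupp.prod_fintype _ _ fun _ => pow_zero _, Fintype.prod_sum_type]

theorem Pv_lev (c : S → ℂ) (M : ℕ) (hM : M ≠ 0) (p : Fin n ⊕ Fin n → ℂ) : Pv (cM c M hM) p = Pv c (lift M p) := by
  funext j
  rw [Pv_sum, Pv_sum, ← Equiv.sum_comp (fi S M hM)]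
  refine Finset.sum_congr rfl fun s _ => ?_
  rw [fi_fst]
  split_ifs
  · rw [cM_fi, fi_snd, mon_ev, mon_ev]
    have h1 : ∏ l, lift M p (Sum.inl l) ^ s.1.2 (Sum.inl l) =
        (M : ℂ) ^ xd s.1.2 * ∏ l, p (Sum.inl l) ^ s.1.2 (Sum.inl l) := by
      unfold xd
      rw [← Finset.prod_pow_eq_pow_sum, ← Finset.prod_mul_distrib]
      exact Finset.prod_congr rfl fun l _ => mul_pow _ _ _
    have h2 : ∏ l, lift M p (Sum.inr l) ^ s.1.2 (Sum.inr l) = ∏ l, p (Sum.inr l) ^ (up M s.1.2) (Sum.inr l) := by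
      refine Finset.prod_congr rfl fun l _ => ?_
      change (p (Sum.inr l) ^ M) ^ s.1.2 (Sum.inr l) = _
      rw [← pow_mul, up_inr]
    rw [h1, h2]
    simp only [up_inl]
    ring
  · rfl

theorem lift_ep (M : ℕ) (z : Fin n → ℂ) : lift M (ep z) = ep fun l => M * z l := by
  funext o
  rcases o with l | l
  · rfl
  · change Complex.exp (z l) ^ M = Complex.exp (M * z l)
    rw [Complex.exp_nat_mul]

theorem val_lev (c : S → ℂ) (M : ℕ) (hM : M ≠ 0) (z : Fin n → ℂ) : val (cM c M hM) z = val c fun l => M * z l := by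
  rw [← Pv_ep, Pv_lev, lift_ep, Pv_ep]

/-- **The systems for the roots.** -/
theorem lev {K : Subfield ℂ} {c : S → ℂ} (hc : Cm K c)
    (h : AlgebraicIndependent K (Sum.elim c fun q : {z : Fin n → ℂ // val c z = 0} × Fin n => (q.1 : Fin n → ℂ) q.2))
    (M : ℕ) (hM : M ≠ 0) : Cm K (cM c M hM) ∧ AlgebraicIndependent K (Sum.elim (cM c M hM)
      fun q : {z : Fin n → ℂ // val (cM c M hM) z = 0} × Fin n => (q.1 : Fin n → ℂ) q.2) := by
  classical
  have hMc : (M : ℂ) ≠ 0 := Nat.cast_ne_zero.2 hM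
  have hz1 : ∀ z : Fin n → ℂ, val c z = 0 → val (cM c M hM) (fun l => z l / M) = 0 := by
    intro z hz
    rw [val_lev]
    have h1 : (fun l => (M : ℂ) * (z l / M)) = z := funext fun l => mul_div_cancel₀ _ hMc
    rw [h1]
    exact hz
  have hAI : AlgebraicIndependent K (Sum.elim (cM c M hM)
      fun q : {z : Fin n → ℂ // val (cM c M hM) z = 0} × Fin n => (q.1 : Fin n → ℂ) q.2) := by
    refine Pool.Agent.H135R2.VS.algInd_of_der fun v => ?_
    obtain ⟨D, hD⟩ := Pool.Agent.H135R2.VS.exists_der h (Sum.elim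
      (fun s => v (Sum.inl (fi S M hM s)) * ((M : ℂ) ^ xd s.1.2)⁻¹)
      fun q => M * v (Sum.inr (⟨fun l => q.1.1 l / M, hz1 q.1.1 q.1.2⟩, q.2)))
    have hDn : ∀ k : ℕ, D ((M : ℂ) ^ k) = 0 := fun k => by
      have h1 : ((M : ℂ) ^ k) = ((M ^ k : ℕ) : ℂ) := by push_cast; rfl
      rw [h1]
      exact Derivation.map_natCast D _
    have hDM : D (M : ℂ) = 0 := Derivation.map_natCast D _
    refine ⟨D, ?_⟩
    rintro (t | ⟨⟨z, hz⟩, l⟩)
    · obtain ⟨s, rfl⟩ := (fi S M hM).surjective t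
      change D (cM c M hM (fi S M hM s)) = _
      have h1 : D (c s) = v (Sum.inl (fi S M hM s)) * ((M : ℂ) ^ xd s.1.2)⁻¹ := hD (Sum.inl s)
      rw [cM_fi, Derivation.leibniz, hDn, smul_zero, zero_add, h1, smul_eq_mul]
      have h2 : (M : ℂ) ^ xd s.1.2 ≠ 0 := pow_ne_zero _ hMc
      field_simp
    · change D (z l) = _
      have hz' : val c (fun l => M * z l) = 0 := by rw [← val_lev]; exact hz
      have h1 : D (M * z l) = M * v (Sum.inr (⟨fun l' => M * z l' / M, hz1 _ hz'⟩, l)) :=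
        hD (Sum.inr (⟨fun l => M * z l, hz'⟩, l))
      have h2 : (⟨fun l' => M * z l' / M, hz1 _ hz'⟩ : {z : Fin n → ℂ // val (cM c M hM) z = 0}) = ⟨z, hz⟩ :=
        Subtype.ext (funext fun l' => mul_div_cancel_left₀ _ hMc)
      rw [h2, Derivation.leibniz, hDM, smul_zero, add_zero, smul_eq_mul] at h1
      exact mul_left_cancel₀ hMc h1
  refine ⟨⟨?_, ?_, fun m t => fg (cM c M hM) {z : Fin n → ℂ | val (cM c M hM) z = 0} hAI m t⟩, hAI⟩
  · intro z hz hdet
    have hz' : val c (fun l => M * z l) = 0 := by rw [← val_lev]; exact hz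
    obtain ⟨v, hv0, hv⟩ := Matrix.exists_mulVec_eq_zero_iff.2 hdet
    have h1 := Ph_deriv (cM c M hM) z
    have h2 : HasFDerivAt (fun z : Fin n → ℂ => fun l => (M : ℂ) * z l)
        ((M : ℂ) • ContinuousLinearMap.id ℂ (Fin n → ℂ)) z := by
      have h3 := ((M : ℂ) • ContinuousLinearMap.id ℂ (Fin n → ℂ)).hasFDerivAt (x := z)
      exact h3
    have h3 := (Ph_deriv c (fun l => (M : ℂ) * z l)).comp z h2
    have h4 : (fun z => Ph (cM c M hM) z) = (fun z => Ph c z) ∘ fun z : Fin n → ℂ => fun l => (M : ℂ) * z l := by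
      funext z'
      change Ph (cM c M hM) z' = Ph c fun l => (M : ℂ) * z' l
      rw [← val_eq_Ph, ← val_eq_Ph, val_lev]
    rw [h4] at h1
    have h5 := h1.unique h3
    have h6 : (Dl (cM c M hM) z) v = (Dl c fun l => (M : ℂ) * z l) ((M : ℂ) • v) := by
      rw [h5]
      rfl
    rw [Dl_apply, Dl_apply, hv] at h6
    have h7 := Matrix.eq_zero_of_mulVec_eq_zero (hc.nd _ hz') h6.symm
    exact hv0 ((smul_eq_zero.1 h7).resolve_left hMc)
  · have h1 : (fun z : Fin n → ℂ => fun l => z l / (M : ℂ)) '' {z | val c z = 0} ⊆ {z | val (cM c M hM) z = 0} := by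
      rintro _ ⟨z, hz, rfl⟩
      exact hz1 z hz
    refine Set.Infinite.mono h1 (hc.inf.image ?_)
    intro z _ z' _ hzz
    funext l
    have h2 := congrFun hzz l
    change z l / (M : ℂ) = z' l / M at h2
    rw [div_left_inj' hMc] at h2
    exact h2

theorem ex_nat {ex : ℂ → ℂ} (hadd : ∀ x y, ex (x + y) = ex x * ex y) (h0 : ex 0 = 1) (M : ℕ) (x : ℂ) :
    ex (M * x) = ex x ^ M := by
  induction M with
  | zero => rw [Nat.cast_zero, zero_mul, h0, pow_zero]
  | succ k ih => rw [Nat.cast_succ, add_mul, one_mul, hadd, ih, pow_succ]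

/-- **The comparison with roots.** -/
theorem lev_ext (hS : Four S) (l0 : Fin n) {K K' : Subfield ℂ} [Countable K] {c : S → ℂ} (hc : Cm K c)
    (h : AlgebraicIndependent K (Sum.elim c fun q : {z : Fin n → ℂ // val c z = 0} × Fin n => (q.1 : Fin n → ℂ) q.2))
    (σ0 : ℂ ≃+* ℂ) (hσK : ∀ a ∈ K, σ0 a ∈ K') (hσ0 : ∀ s, σ0 (c s) = c s) {z : ℕ → Fin n → ℂ}
    (hzi : Function.Injective z) (hz : ∀ i, val c (z i) = 0) {ex : ℂ → ℂ} (hadd : ∀ x y, ex (x + y) = ex x * ex y)
    (h0 : ex 0 = 1) {x : ℕ → Fin n → ℂ} (hx : ∀ i, Pv c (xp ex (x i)) = 0)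
    (hxI : ∀ k : ℕ, AlgebraicIndependent (SE.Fq K' c fun i : Fin k => xp ex (x i)) (x k)) (M : ℕ) (hM : M ≠ 0) (k : ℕ) :
    ∃ σ : ℂ ≃+* ℂ, (∀ a ∈ K, σ a = σ0 a) ∧ (∀ s, σ (c s) = c s) ∧
      ∀ i < k, ∀ l, σ (z i l) = x i l ∧ σ (Complex.exp (z i l / M)) = ex (x i l / M) := by
  have hMc : (M : ℂ) ≠ 0 := Nat.cast_ne_zero.2 hM
  obtain ⟨g1, g2⟩ := lev hc h M hM
  have hne : ∀ y, ex y ≠ 0 := by
    intro y hy
    have h1 := hadd y (-y)
    rw [add_neg_cancel, h0, hy, zero_mul] at h1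
    exact one_ne_zero h1
  have hroot : ∀ y : ℂ, ex (y / M) ^ M = ex y := by
    intro y
    rw [← ex_nat hadd h0, mul_div_cancel₀ _ hMc]
  obtain ⟨σ, hσ1, hσ2, hσ3⟩ := ext_fin (SM_tw hS M hM) l0 (K' := K') (d := cM c M hM) g1 g2 σ0 hσK (fun t => by
      unfold cM
      rw [map_mul, map_pow, map_natCast, hσ0]) (z := fun i l => z i l / M) (fun i j hij => hzi (funext fun l => by
        have h1 := congrFun hij l
        change z i l / (M : ℂ) = z j l / M at h1
        rwa [div_left_inj' hMc] at h1)) (fun i => by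
      rw [val_lev]
      have h1 : (fun l => (M : ℂ) * (z i l / M)) = z i := funext fun l => mul_div_cancel₀ _ hMc
      rw [h1]
      exact hz i) (q := fun i => xp ex fun l => x i l / M) (fun i => by
      rw [Pv_lev]
      have h1 : lift M (xp ex fun l => x i l / M) = xp ex (x i) := by
        funext o
        rcases o with l | l
        · exact mul_div_cancel₀ _ hMc
        · exact hroot _
      rw [h1]
      exact hx i) (fun k => by
      refine Pool.Agent.H135R2.VS.algInd_of_der fun v => ?_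
      obtain ⟨D, hD⟩ := Pool.Agent.H135R2.VS.exists_der (hxI k) fun l => M * v l
      have hDF : ∀ y ∈ SE.Fq K' c (fun i : Fin k => xp ex (x i)), D y = 0 := fun y hy =>
        Derivation.map_algebraMap D (⟨y, hy⟩ : SE.Fq K' c (fun i : Fin k => xp ex (x i)))
      have hDM : D (M : ℂ) = 0 := Derivation.map_natCast D _
      have hdiv : ∀ y, D (y / M) = D y / M := by
        intro y
        rw [Derivation.leibniz_div, hDM, smul_zero, sub_zero, smul_eq_mul, smul_eq_mul]
        field_simp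
      have hle : Fq K' (cM c M hM) (fun i : Fin k => xp ex fun l => x i l / M) ≤ kf (D.restrictScalars ℤ) := by
        refine Subfield.closure_le.2 ?_
        rintro y (hy | ⟨t, rfl⟩ | ⟨⟨i, l | l⟩, rfl⟩)
        · exact hDF y (Subfield.subset_closure (Or.inl hy))
        · obtain ⟨s, rfl⟩ := (fi S M hM).surjective t
          change D (cM c M hM (fi S M hM s)) = 0
          have h1 : ((M : ℂ) ^ xd s.1.2) = ((M ^ xd s.1.2 : ℕ) : ℂ) := by push_cast; rfl
          rw [cM_fi, h1, Derivation.leibniz, Derivation.map_natCast,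
            hDF _ (Subfield.subset_closure (Or.inr (Or.inl ⟨s, rfl⟩))), smul_zero, smul_zero, add_zero]
        · change D (x i l / M) = 0
          rw [hdiv, hDF (x i l) (Subfield.subset_closure (Or.inr (Or.inr ⟨(i, Sum.inl l), rfl⟩))), zero_div]
        · change D (ex (x i l / M)) = 0
          have h1 : D (ex (x i l)) = 0 := hDF _ (Subfield.subset_closure (Or.inr (Or.inr ⟨(i, Sum.inr l), rfl⟩)))
          rw [← hroot, Derivation.leibniz_pow] at h1
          have h2 : (M : ℂ) * ex (x i l / M) ^ (M - 1) ≠ 0 := mul_ne_zero hMc (pow_ne_zero _ (hne _))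
          rw [nsmul_eq_mul, smul_eq_mul, ← mul_assoc] at h1
          exact (mul_eq_zero.1 h1).resolve_left h2
      refine ⟨ofD _ _ hle, fun l => ?_⟩
      rw [ofD_apply]
      change D (x k l / M) = v l
      rw [hdiv, hD]
      exact mul_div_cancel_left₀ _ hMc) k
  refine ⟨σ, hσ1, fun s => ?_, fun i hi l => ⟨?_, ?_⟩⟩
  · have h1 := hσ2 (fi S M hM s)
    rw [cM_fi, map_mul, map_pow, map_natCast] at h1
    exact mul_right_cancel₀ (pow_ne_zero _ hMc) h1
  · have h1 := hσ3 i hi (Sum.inl l)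
    change σ (z i l / M) = x i l / M at h1
    rw [map_div₀, map_natCast, div_left_inj' hMc] at h1
    exact h1
  · exact hσ3 i hi (Sum.inr l)

end Pool.Agent.V8H73.SF
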