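import Pool.Agent.V8H73.SF.Irr
import Pool.Agent.V8H73.SE.Def

/-!
# Comparison with other exponential maps
-/

set_option autoImplicit false
set_option linter.unusedSectionVars false

open MvPolynomial

namespace Pool.Agent.V8H73.SF

open Pool.Agent.V8H73.SE

open Pool.Agent.V8H73.AN (Ex Four Ph ez mo JJ Pj ιX ev_map Pj_map)

/-- coordinates which form a transcendence basis -/
theorem exists_sub {E : Subfield ℂ} {ρ : Type} [Fintype ρ] (p : ρ → ℂ) {M : IntermediateField E ℂ}
    (hM : M = IntermediateField.adjoin E (Set.range p)) {k : ℕ} (h : Algebra.trdeg E M = k) :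
    ∃ R : Fin k → ρ, AlgebraicIndependent E (fun i => p (R i)) := by
  classical
  let Λ : Derivation E ℂ ℂ →ₗ[ℂ] (ρ → ℂ) :=
    { toFun := fun δ o => δ (p o), map_add' := fun _ _ => rfl, map_smul' := fun _ _ => rfl }
  let V := LinearMap.range Λ
  let b := Module.finBasis ℂ V
  have hli : LinearIndependent ℂ (fun i => ((b i : V) : ρ → ℂ)) :=
    b.linearIndependent.map' V.subtype V.ker_subtype
  obtain ⟨R, hR⟩ := exists_rows (Matrix.of fun (o : ρ) i => ((b i : V) : ρ → ℂ) o) hli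
  have hsum : ∀ (w : V) (o : ρ), (w : ρ → ℂ) o = ∑ i, b.repr w i * ((b i : V) : ρ → ℂ) o := by
    intro w o
    have h1 : ((∑ i, b.repr w i • b i : V) : ρ → ℂ) o = (w : ρ → ℂ) o := by rw [b.sum_repr w]
    rw [← h1, Submodule.coe_sum, Finset.sum_apply]
    rfl
  have hAI : AlgebraicIndependent E (fun i => p (R i)) := by
    refine Pool.Agent.H135R2.VS.algInd_of_der fun v => ?_
    let B := (Matrix.of fun (o : ρ) i => ((b i : V) : ρ → ℂ) o).submatrix R id
    have hu : IsUnit B.det := isUnit_iff_ne_zero.2 hR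
    let x := B⁻¹.mulVec v
    have hx : B.mulVec x = v := by
      rw [Matrix.mulVec_mulVec, Matrix.mul_nonsing_inv _ hu, Matrix.one_mulVec]
    obtain ⟨δ, hδ⟩ := (∑ i, x i • b i : V).2
    refine ⟨δ, fun j => ?_⟩
    have h1 := congrFun hδ (R j)
    change δ (p (R j)) = _ at h1
    rw [h1, ← congrFun hx j, Submodule.coe_sum, Finset.sum_apply]
    refine Finset.sum_congr rfl fun i _ => ?_
    change x i * ((b i : V) : ρ → ℂ) (R j) = ((b i : V) : ρ → ℂ) (R j) * x i
    ring
  have hle : Algebra.trdeg E M ≤ Module.finrank ℂ V := by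
    let LZ : Derivation E ℂ ℂ →ₗ[ℂ] (Fin (Module.finrank ℂ V) → ℂ) :=
      { toFun := fun δ i => δ (p (R i)), map_add' := fun _ _ => rfl, map_smul' := fun _ _ => rfl }
    refine trdeg_le_of_kill LZ _ fun δ hδ m hm => ?_
    have h1 : b.repr ⟨Λ δ, ⟨δ, rfl⟩⟩ = 0 := by
      have h2 : ((Matrix.of fun (o : ρ) i => ((b i : V) : ρ → ℂ) o).submatrix R id).mulVec
          (fun i => b.repr ⟨Λ δ, ⟨δ, rfl⟩⟩ i) = 0 := by
        funext j
        have h3 := hsum ⟨Λ δ, ⟨δ, rfl⟩⟩ (R j)
        have h4 : (Λ δ) (R j) = 0 := congrFun hδ j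
        change (Λ δ) (R j) = _ at h3
        rw [h4] at h3
        rw [Pi.zero_apply, h3]
        change ∑ i, ((b i : V) : ρ → ℂ) (R j) * b.repr ⟨Λ δ, ⟨δ, rfl⟩⟩ i = _
        refine Finset.sum_congr rfl fun i _ => ?_
        ring
      have h3 := Matrix.eq_zero_of_mulVec_eq_zero hR h2
      exact Finsupp.ext fun i => congrFun h3 i
    have h2 : ∀ o, δ (p o) = 0 := by
      intro o
      have h3 := hsum ⟨Λ δ, ⟨δ, rfl⟩⟩ o
      rw [h1] at h3
      change δ (p o) = _ at h3
      rw [h3]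
      simp
    rw [hM] at hm
    refine der_adjoin _ δ ?_ ⟨m, hm⟩
    rintro _ ⟨o, rfl⟩
    exact h2 o
  have hge : (Module.finrank ℂ V : Cardinal) ≤ Algebra.trdeg E M := by
    have h1 : AlgebraicIndependent E (fun i : Fin (Module.finrank ℂ V) => (⟨p (R i), by
        rw [hM]
        exact IntermediateField.subset_adjoin _ _ ⟨_, rfl⟩⟩ : M)) := by
      refine AlgebraicIndependent.of_comp (f := IntermediateField.val _) ?_
      exact hAI
    have h2 := h1.cardinalMk_le_trdeg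
    rwa [Cardinal.mk_fin] at h2
  have hk : k = Module.finrank ℂ V := by
    have h1 := le_antisymm hle hge
    rw [h] at h1
    exact_mod_cast h1
  subst hk
  exact ⟨R, hAI⟩

variable {n : ℕ} {S : Finset (Fin n × Ex n)}

/-- **Generic points.** -/
theorem gen_pt (hS : Tw S) {K : Subfield ℂ} [Countable K] {d : S → ℂ} (hc : Cm K d)
    (h : AlgebraicIndependent K (Sum.elim d fun q : {z : Fin n → ℂ // val d z = 0} × Fin n => (q.1 : Fin n → ℂ) q.2))
    {E : Subfield ℂ} (hKE : K ≤ E) (hdE : ∀ s, d s ∈ E) {p : Fin n ⊕ Fin n → ℂ} (hp : Pv d p = 0)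
    {M : IntermediateField E ℂ} (hM : M = IntermediateField.adjoin E (Set.range p)) (htr : Algebra.trdeg E M = n) :
    AlgebraicIndependent E (fun l => p (Sum.inl l)) := by
  obtain ⟨R, hRI⟩ := exists_sub p hM htr
  have hd : AlgebraicIndependent K d := h.comp Sum.inl Sum.inl_injective
  have h1 := ai_tower' hd hKE hdE hRI
  have h2 := fm1_ind hS hp (J := Fin n) (Fintype.card_fin n) (e := R) h1
  obtain ⟨z, hz⟩ := hc.inf.nonempty
  have hz0 : Pv d (ep z) = 0 := by rw [Pv_ep, hz]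
  have h3 := fm1_ind hS hz0 (J := Fin n) (Fintype.card_fin n) (e := Sum.inl) (sub1 h hz)
  obtain ⟨ρ, hK, hρd, hρp⟩ := conj1 hS hz0 hp h3 h2
  refine (Pool.Agent.V8H73.AN.count hRI (Z := fun l => p (Sum.inl l)) fun δ hδ => ?_).2 rfl
  have hδE : ∀ x ∈ E, δ x = 0 := fun x hx => Derivation.map_algebraMap δ (⟨x, hx⟩ : E)
  let D := cj ρ (δ.restrictScalars ℤ)
  have hD : ∀ x, D x = ρ.symm (δ (ρ x)) := fun x => rfl
  let D' := ofD K D fun x hx => by
    change D x = 0
    rw [hD, hK ⟨x, hx⟩, hδE x (hKE hx), map_zero]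
  have h4 : ∀ l, δ (p (Sum.inr l)) = 0 := by
    intro l
    have h5 := kill_exp hS (sub1 h hz) hz D' (fun q => ?_) (fun l' => ?_) l
    · change D (Complex.exp (z l)) = 0 at h5
      rw [hD] at h5
      have h6 : ρ (Complex.exp (z l)) = p (Sum.inr l) := hρp (Sum.inr l)
      rw [h6] at h5
      exact (map_eq_zero ρ.symm).1 h5
    · change D (d q) = 0
      rw [hD, hρd, hδE _ (hdE q), map_zero]
    · change D (z l') = 0
      have h6 : ρ (z l') = p (Sum.inl l') := hρp (Sum.inl l')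
      rw [hD, h6, hδ, map_zero]
  intro i
  rcases R i with l | l
  · exact hδ l
  · exact h4 l

/-- the field generated by the coefficients and some points -/
noncomputable def Fq (K : Subfield ℂ) (c : S → ℂ) {k : ℕ} (q : Fin k → Fin n ⊕ Fin n → ℂ) : Subfield ℂ :=
  Subfield.closure ((K : Set ℂ) ∪ (Set.range c ∪ Set.range fun v : Fin k × (Fin n ⊕ Fin n) => q v.1 v.2))

/-- points of the variety -/
theorem Vi_ev (hS : Tw S) (l0 : Fin n) {K : Subfield ℂ} [Countable K] {c : S → ℂ} (hc : Cm K c)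
    (h : AlgebraicIndependent K (Sum.elim c fun q : {z : Fin n → ℂ // val c z = 0} × Fin n => (q.1 : Fin n → ℂ) q.2))
    {p : Fin n ⊕ Fin n → ℂ} (hp : Pv c p = 0) {f : MvPolynomial (Fin n ⊕ Fin n) ℂ} (hf : f ∈ Vi c) : eval p f = 0 := by
  rw [← rad_eq hS l0 hc h] at hf
  obtain ⟨k, hk⟩ := hf
  have h3 : Ideal.span (Set.range (Pj c)) ≤ RingHom.ker (eval p : MvPolynomial (Fin n ⊕ Fin n) ℂ →+* ℂ) := by
    refine Ideal.span_le.2 ?_
    rintro _ ⟨j, rfl⟩
    exact congrFun hp j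
  have h4 : eval p (f ^ k) = 0 := h3 hk
  rw [map_pow] at h4
  by_contra h5
  exact pow_ne_zero k h5 h4

/-- **Sequences of independent generic points are conjugate to sequences of exponential points.** -/
theorem ext_fin (hS : Tw S) (l0 : Fin n) {K K' : Subfield ℂ} [Countable K] {c d : S → ℂ} (hc : Cm K c)
    (h : AlgebraicIndependent K (Sum.elim c fun q : {z : Fin n → ℂ // val c z = 0} × Fin n => (q.1 : Fin n → ℂ) q.2))
    (σ0 : ℂ ≃+* ℂ) (hσK : ∀ a ∈ K, σ0 a ∈ K') (hσ0 : ∀ s, σ0 (c s) = d s) {z : ℕ → Fin n → ℂ}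
    (hzi : Function.Injective z) (hz : ∀ i, val c (z i) = 0) {q : ℕ → Fin n ⊕ Fin n → ℂ} (hq : ∀ i, Pv d (q i) = 0)
    (hqI : ∀ k : ℕ, AlgebraicIndependent (Fq K' d fun i : Fin k => q i) fun l => q k (Sum.inl l)) :
    ∀ k : ℕ, ∃ σ : ℂ ≃+* ℂ, (∀ a ∈ K, σ a = σ0 a) ∧ (∀ s, σ (c s) = d s) ∧
      ∀ i < k, ∀ o, σ (ep (z i) o) = q i o := by
  intro k
  induction k with
  | zero => exact ⟨σ0, fun _ _ => rfl, hσ0, fun i hi => absurd hi (Nat.not_lt_zero i)⟩
  | succ k ih =>
    obtain ⟨σ, hK, hσ, hσz⟩ := ih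
    have hcE := Ez_count K c fun i : Fin k => z i
    have a1 := Ez_ai hS h (z := fun i : Fin k => z i) (fun i => hz i) (hz k) fun i hi => i.2.ne (hzi hi)
    have hmap : ∀ x ∈ Ez K c (fun i : Fin k => z i), σ x ∈ Fq K' d fun i : Fin k => q i := by
      have h1 : Ez K c (fun i : Fin k => z i) ≤ (Fq K' d fun i : Fin k => q i).comap (σ : ℂ →+* ℂ) := by
        refine Subfield.closure_le.2 ?_
        rintro x (hx | ⟨s, rfl⟩ | ⟨⟨i, o⟩, rfl⟩)
        · change σ x ∈ Fq K' d fun i : Fin k => q i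
          rw [hK x hx]
          exact Subfield.subset_closure (Or.inl (hσK x hx))
        · change σ (c s) ∈ Fq K' d fun i : Fin k => q i
          rw [hσ]
          exact Subfield.subset_closure (Or.inr (Or.inl ⟨s, rfl⟩))
        · change σ (ep (z i) o) ∈ Fq K' d fun i : Fin k => q i
          rw [hσz i i.2]
          exact Subfield.subset_closure (Or.inr (Or.inr ⟨(i, o), rfl⟩))
      exact h1
    have a3 := ai_conj hmap (hqI k)
    have hq' : Pv c (fun o => σ.symm (q k o)) = 0 := by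
      funext j
      have h1 := map_Pv σ c (fun o => σ.symm (q k o)) j
      have h2 : (fun o => σ (σ.symm (q k o))) = q k := funext fun o => σ.apply_symm_apply _
      have h3 : (fun s => σ (c s)) = d := funext hσ
      rw [h2, h3, hq k] at h1
      exact (map_eq_zero σ).1 h1
    obtain ⟨ρ, hρE, hρ⟩ := conj_gen hS l0 hc h (E := Ez K c fun i : Fin k => z i)
      (fun s => Subfield.subset_closure (Or.inr (Or.inl ⟨s, rfl⟩))) (q := ep (z k))
      (fun f hf => hf _ (hz k)) (fun f hf => Vi_ev hS l0 hc h hq' hf) a1 a3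
    refine ⟨ρ.trans σ, fun a ha => ?_, fun s => ?_, fun i hi o => ?_⟩
    · rw [RingEquiv.trans_apply, hρE a (Subfield.subset_closure (Or.inl ha)), hK a ha]
    · rw [RingEquiv.trans_apply, hρE _ (Subfield.subset_closure (Or.inr (Or.inl ⟨s, rfl⟩))), hσ]
    · rw [RingEquiv.trans_apply]
      rcases Nat.lt_succ_iff_lt_or_eq.1 hi with hi | rfl
      · rw [hρE _ (Subfield.subset_closure (Or.inr (Or.inr ⟨(⟨i, hi⟩, o), rfl⟩))), hσz i hi]
      · rw [hρ, RingEquiv.apply_symm_apply]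

/-- sequences -/
theorem exists_seq {α : Type} {Q : Set α → α → Prop} (h : ∀ A : Set α, A.Finite → ∃ x, Q A x) :
    ∃ x : ℕ → α, ∀ k, Q (x '' Set.Iio k) (x k) := by
  choose f hf using h
  let L : ℕ → {A : Set α // A.Finite} := fun k => Nat.rec ⟨∅, Set.finite_empty⟩
    (fun _ A => ⟨insert (f A.1 A.2) A.1, A.2.insert _⟩) k
  let x : ℕ → α := fun k => f (L k).1 (L k).2
  have hL : ∀ k, (L k).1 = x '' Set.Iio k := by
    intro k
    induction k with
    | zero =>
      change ∅ = x '' Set.Iio 0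
      simp
    | succ k ih =>
      change insert (x k) (L k).1 = x '' Set.Iio (k + 1)
      rw [ih, ← Set.image_insert_eq]
      congr 1
      ext i
      simp only [Set.mem_insert_iff, Set.mem_Iio]
      omega
  refine ⟨x, fun k => ?_⟩
  rw [← hL]
  exact hf _ _

end Pool.Agent.V8H73.SF
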